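import Mathlib

/-! Logarithmic density of residue classes. -/

set_option autoImplicit false

namespace Pool.Agent.U441.MS

open Filter Topology

/-- the sum of `1 / n` over `1 ≤ n ≤ N`, `n ≡ r` modulo `q` -/
noncomputable def cs (q r N : ℕ) : ℝ :=
  ∑ n ∈ Finset.range (N + 1), if n % q = r % q then 1 / (n : ℝ) else 0

lemma cs_nonneg_term (q r n : ℕ) : (0 : ℝ) ≤ if n % q = r % q then 1 / (n : ℝ) else 0 := by
  split
  · positivity
  · exact le_rfl

lemma term_le (q r n : ℕ) : (if n % q = r % q then 1 / (n : ℝ) else 0) ≤ 1 := by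
  split
  · rcases Nat.eq_zero_or_pos n with h | h
    · simp [h]
    · rw [div_le_one (by exact_mod_cast h)]
      exact_mod_cast h
  · exact zero_le_one

lemma tele (N : ℕ) : ∑ n ∈ Finset.range N, (1 / (((n + 1 : ℕ) : ℝ)) - 1 / (((n + 2 : ℕ) : ℝ))) ≤ 1 := by
  have h : ∀ N : ℕ, ∑ n ∈ Finset.range N, (1 / (((n + 1 : ℕ) : ℝ)) - 1 / (((n + 2 : ℕ) : ℝ))) =
      1 - 1 / ((N + 1 : ℕ) : ℝ) := by
    intro N
    induction N with
    | zero => simp
    | succ N ih =>
      rw [Finset.sum_range_succ, ih]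
      ring
  rw [h]
  have : 0 ≤ 1 / ((N + 1 : ℕ) : ℝ) := by positivity
  linarith

lemma cs_shift (q r N : ℕ) : |cs q (r + 1) N - cs q r N| ≤ 4 := by
  -- compare `n + 1 ≡ r + 1` with `n ≡ r`
  have e1 : cs q (r + 1) (N + 1) = (if 0 % q = (r + 1) % q then 1 / ((0 : ℕ) : ℝ) else 0) +
      ∑ n ∈ Finset.range (N + 1), if n % q = r % q then 1 / ((n + 1 : ℕ) : ℝ) else 0 := by
    unfold cs
    rw [Finset.sum_range_succ', add_comm]
    congr 1
    refine Finset.sum_congr rfl fun n _ => ?_
    have : (n + 1) % q = (r + 1) % q ↔ n % q = r % q := by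
      constructor
      · intro h
        exact Nat.ModEq.add_right_cancel' 1 h
      · intro h
        exact Nat.ModEq.add_right 1 h
    simp only [this]
  have e2 : cs q (r + 1) (N + 1) = cs q (r + 1) N +
      (if (N + 1) % q = (r + 1) % q then 1 / ((N + 1 : ℕ) : ℝ) else 0) := by
    unfold cs
    rw [Finset.sum_range_succ _ (N + 1)]
  have e3 : (if 0 % q = (r + 1) % q then 1 / ((0 : ℕ) : ℝ) else 0) = 0 := by
    split <;> simp
  rw [e3, zero_add] at e1
  have h1 : |(∑ n ∈ Finset.range (N + 1), if n % q = r % q then 1 / ((n + 1 : ℕ) : ℝ) else 0) -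
      cs q r N| ≤ 2 := by
    unfold cs
    rw [← Finset.sum_sub_distrib, Finset.sum_range_succ']
    refine (abs_add_le _ _).trans ?_
    have h2 : |∑ n ∈ Finset.range N, ((if (n + 1) % q = r % q then 1 / ((n + 1 + 1 : ℕ) : ℝ) else 0) -
        if (n + 1) % q = r % q then 1 / ((n + 1 : ℕ) : ℝ) else 0)| ≤ 1 := by
      refine (Finset.abs_sum_le_sum_abs _ _).trans (le_trans ?_ (tele N))
      refine Finset.sum_le_sum fun n _ => ?_
      have h3 : 1 / ((n + 2 : ℕ) : ℝ) ≤ 1 / ((n + 1 : ℕ) : ℝ) := by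
        apply one_div_le_one_div_of_le
        · positivity
        · push_cast; linarith
      split
      · rw [show n + 1 + 1 = n + 2 by ring, abs_sub_comm, abs_of_nonneg (by linarith)]
      · simp only [sub_self, abs_zero]
        linarith
    have h4 : |(if 0 % q = r % q then 1 / ((0 + 1 : ℕ) : ℝ) else 0) -
        if 0 % q = r % q then 1 / ((0 : ℕ) : ℝ) else 0| ≤ 1 := by
      split <;> simp
    linarith
  have h5 := cs_nonneg_term q (r + 1) (N + 1)
  have h6 := term_le q (r + 1) (N + 1)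
  rw [abs_le] at h1 ⊢
  constructor <;> linarith [h1.1, h1.2]

lemma cs_zero (q r N : ℕ) : |cs q r N - cs q 0 N| ≤ 4 * r := by
  induction r with
  | zero => simp
  | succ r ih =>
    have h := cs_shift q r N
    refine (abs_sub_le _ (cs q r N) _).trans ?_
    push_cast
    linarith

lemma cs_sum (q N : ℕ) (hq : 0 < q) : ∑ r ∈ Finset.range q, cs q r N = ((harmonic N : ℚ) : ℝ) := by
  unfold cs
  rw [Finset.sum_comm]
  have h : ∀ n : ℕ, ∑ r ∈ Finset.range q, (if n % q = r % q then 1 / (n : ℝ) else 0) = 1 / (n : ℝ) := by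
    intro n
    have e : ∀ r ∈ Finset.range q, (if n % q = r % q then 1 / (n : ℝ) else 0) =
        if n % q = r then 1 / (n : ℝ) else 0 := by
      intro r hr
      rw [Nat.mod_eq_of_lt (Finset.mem_range.1 hr)]
    rw [Finset.sum_congr rfl e, Finset.sum_ite_eq, if_pos (Finset.mem_range.2 (Nat.mod_lt n hq))]
  rw [Finset.sum_congr rfl fun n _ => h n, Finset.sum_range_succ']
  unfold harmonic
  push_cast
  simp

lemma cs_main (q r N : ℕ) (hq : 0 < q) :
    |cs q r N - ((harmonic N : ℚ) : ℝ) / q| ≤ 4 * r + 4 * q := by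
  have h1 := cs_zero q r N
  have h2 : |(q : ℝ) * cs q 0 N - ((harmonic N : ℚ) : ℝ)| ≤ 4 * q * q := by
    rw [← cs_sum q N hq]
    have e : (q : ℝ) * cs q 0 N - ∑ r ∈ Finset.range q, cs q r N =
        ∑ r ∈ Finset.range q, (cs q 0 N - cs q r N) := by
      rw [Finset.sum_sub_distrib]
      simp
    rw [e]
    refine (Finset.abs_sum_le_sum_abs _ _).trans ?_
    calc ∑ r ∈ Finset.range q, |cs q 0 N - cs q r N| ≤ ∑ _r ∈ Finset.range q, (4 * (q : ℝ)) := by
          refine Finset.sum_le_sum fun s hs => ?_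
          rw [abs_sub_comm]
          refine (cs_zero q s N).trans ?_
          have : (s : ℝ) ≤ q := by exact_mod_cast (Finset.mem_range.1 hs).le
          linarith
      _ = 4 * q * q := by simp; ring
  have hq' : (0 : ℝ) < q := by exact_mod_cast hq
  have h3 : |cs q 0 N - ((harmonic N : ℚ) : ℝ) / q| ≤ 4 * q := by
    have e : cs q 0 N - ((harmonic N : ℚ) : ℝ) / q =
        ((q : ℝ) * cs q 0 N - ((harmonic N : ℚ) : ℝ)) / q := by
      field_simp
    rw [e, abs_div, abs_of_pos hq', div_le_iff₀ hq']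
    exact h2
  exact (abs_sub_le _ (cs q 0 N) _).trans (by linarith)

/-- the logarithmic density of a residue class modulo `q` is `1 / q` -/
theorem cs_lim (q r : ℕ) (hq : 0 < q) :
    Tendsto (fun N : ℕ => cs q r N / Real.log N) atTop (𝓝 (1 / q)) := by
  have hlogt : Tendsto (fun N : ℕ => Real.log N) atTop atTop :=
    Real.tendsto_log_atTop.comp tendsto_natCast_atTop_atTop
  have h1 : Tendsto (fun N : ℕ => ((harmonic N : ℚ) : ℝ) / Real.log N) atTop (𝓝 1) := by
    have h2 := Real.tendsto_harmonic_sub_log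
    have h3 := h2.div_atTop hlogt
    have h4 := h3.add_const 1
    rw [zero_add] at h4
    refine h4.congr' ?_
    filter_upwards [hlogt.eventually_gt_atTop 0] with N hN
    field_simp
    ring
  have h2 : Tendsto (fun N : ℕ => (cs q r N - ((harmonic N : ℚ) : ℝ) / q) / Real.log N) atTop (𝓝 0) := by
    have h3 : Tendsto (fun N : ℕ => (4 * (r : ℝ) + 4 * q) * (Real.log N)⁻¹) atTop (𝓝 0) := by
      simpa using (tendsto_inv_atTop_zero.comp hlogt).const_mul (4 * (r : ℝ) + 4 * q)
    refine squeeze_zero_norm' ?_ h3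
    filter_upwards [hlogt.eventually_gt_atTop 0] with N hN
    rw [norm_div, Real.norm_eq_abs, Real.norm_of_nonneg hN.le, div_eq_mul_inv]
    exact mul_le_mul_of_nonneg_right (cs_main q r N hq) (by positivity)
  have h3 := h2.add (h1.div_const (q : ℝ))
  rw [zero_add] at h3
  refine h3.congr fun N => ?_
  ring

end Pool.Agent.U441.MS
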