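import Pool.Agent.Helper601.BT
import Pool.Agent.Helper923.PNT

/-! Primes `⌊t⌋ + h`: the integral of the indicator function. -/

set_option autoImplicit false

namespace Pool.Agent.U441.MS

open MeasureTheory Filter Topology Set

/-- the indicator function of the set of real numbers `t` for which `⌊t⌋ + h` is prime -/
noncomputable def ind (h : ℤ) : ℝ → ℝ := Set.indicator {t : ℝ | (⌊t⌋ + h).toNat.Prime} (fun _ => 1)

lemma ind_nonneg (h : ℤ) (t : ℝ) : 0 ≤ ind h t :=
  Set.indicator_nonneg (fun _ _ => zero_le_one) t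

lemma ind_le_one (h : ℤ) (t : ℝ) : ind h t ≤ 1 := by
  unfold ind
  by_cases ht : t ∈ {t : ℝ | (⌊t⌋ + h).toNat.Prime}
  · rw [Set.indicator_of_mem ht]
  · rw [Set.indicator_of_notMem ht]; exact zero_le_one

lemma ind_sq (h : ℤ) (t : ℝ) : ind h t * ind h t = ind h t := by
  unfold ind
  by_cases ht : t ∈ {t : ℝ | (⌊t⌋ + h).toNat.Prime}
  · rw [Set.indicator_of_mem ht, one_mul]
  · rw [Set.indicator_of_notMem ht, zero_mul]

lemma ind_meas (h : ℤ) : Measurable (ind h) := by
  refine measurable_const.indicator ?_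
  have : {t : ℝ | (⌊t⌋ + h).toNat.Prime} = (fun t : ℝ => ⌊t⌋) ⁻¹' {z : ℤ | (z + h).toNat.Prime} := rfl
  rw [this]
  exact Int.measurable_floor (MeasurableSet.of_discrete)

lemma ind_floor (h : ℤ) (t : ℝ) (z : ℤ) (hz : ⌊t⌋ = z) : ind h t = ind h z := by
  unfold ind Set.indicator
  simp only [mem_setOf_eq, hz, Int.floor_intCast]

lemma ind_int (h : ℤ) (f : ℝ → ℝ) (hf : Measurable f) (u v : ℝ) :
    IntervalIntegrable (fun t => ind h (f t)) volume u v := by
  refine (intervalIntegrable_const (c := (1 : ℝ))).mono_fun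
    ((ind_meas h).comp hf).aestronglyMeasurable (ae_of_all _ fun t => ?_)
  show ‖ind h (f t)‖ ≤ ‖(1 : ℝ)‖
  rw [Real.norm_of_nonneg (ind_nonneg h _), norm_one]
  exact ind_le_one h _

lemma ind2_int (h : ℤ) (f g : ℝ → ℝ) (hf : Measurable f) (hg : Measurable g) (u v : ℝ) :
    IntervalIntegrable (fun t => ind h (f t) * ind h (g t)) volume u v := by
  refine (intervalIntegrable_const (c := (1 : ℝ))).mono_fun
    (((ind_meas h).comp hf).mul ((ind_meas h).comp hg)).aestronglyMeasurable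
    (ae_of_all _ fun t => ?_)
  show ‖ind h (f t) * ind h (g t)‖ ≤ ‖(1 : ℝ)‖
  rw [Real.norm_of_nonneg (mul_nonneg (ind_nonneg h _) (ind_nonneg h _)), norm_one]
  exact mul_le_one₀ (ind_le_one h _) (ind_nonneg h _) (ind_le_one h _)

lemma ind_unit (h : ℤ) (z : ℕ) : ∫ t in (z : ℝ)..((z + 1 : ℕ) : ℝ), ind h t = ind h z := by
  have e : ∫ t in (z : ℝ)..((z + 1 : ℕ) : ℝ), ind h t = ∫ t in (z : ℝ)..((z + 1 : ℕ) : ℝ), ind h z := by
    refine intervalIntegral.integral_congr_ae ?_
    have hne : ∀ᵐ t : ℝ, t ≠ ((z + 1 : ℕ) : ℝ) := by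
      simp [ae_iff, measure_singleton]
    filter_upwards [hne] with t ht ht2
    rw [Set.uIoc_of_le (by push_cast; linarith)] at ht2
    have h3 : ⌊t⌋ = (z : ℤ) := by
      rw [Int.floor_eq_iff]
      have h4 : t < ((z + 1 : ℕ) : ℝ) := lt_of_le_of_ne ht2.2 ht
      push_cast at h4 ⊢
      exact ⟨ht2.1.le, h4⟩
    rw [ind_floor h t z h3]
    simp
  rw [e, intervalIntegral.integral_const]
  push_cast
  simp

/-- the integral from zero -/
noncomputable def G (h : ℤ) (x : ℝ) : ℝ := ∫ t in (0 : ℝ)..x, ind h t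

lemma int_eq (h : ℤ) (x y : ℝ) : ∫ t in x..y, ind h t = G h y - G h x := by
  unfold G
  rw [intervalIntegral.integral_interval_sub_left] <;>
    exact ind_int h (fun t => t) measurable_id _ _

lemma G_mono (h : ℤ) {x y : ℝ} (hxy : x ≤ y) : G h x ≤ G h y := by
  have : 0 ≤ ∫ t in x..y, ind h t := intervalIntegral.integral_nonneg hxy fun t _ => ind_nonneg h t
  rw [int_eq] at this
  linarith

lemma G_lip (h : ℤ) {x y : ℝ} (hxy : x ≤ y) : G h y - G h x ≤ y - x := by
  rw [← int_eq]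
  calc ∫ t in x..y, ind h t ≤ ∫ _t in x..y, (1 : ℝ) :=
        intervalIntegral.integral_mono_on hxy (ind_int h (fun t => t) measurable_id _ _)
          intervalIntegrable_const fun t _ => ind_le_one h t
    _ = y - x := by simp

lemma G_nat (h : ℤ) (n : ℕ) : G h n = ∑ z ∈ Finset.range n, ind h z := by
  induction n with
  | zero => simp [G]
  | succ n ih =>
    rw [Finset.sum_range_succ, ← ih, ← ind_unit h n, int_eq]
    ring

lemma G_shift (h : ℤ) (n : ℕ) : |G (h + 1) n - G h n| ≤ 1 := by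
  rw [G_nat, G_nat]
  have e : ∀ z : ℕ, ind (h + 1) z = ind h ((z + 1 : ℕ) : ℝ) := by
    intro z
    unfold ind Set.indicator
    have e1 : ⌊((z : ℕ) : ℝ)⌋ = (z : ℤ) := Int.floor_natCast z
    have e2 : ⌊((z + 1 : ℕ) : ℝ)⌋ = ((z + 1 : ℕ) : ℤ) := Int.floor_natCast _
    simp only [mem_setOf_eq, e1, e2]
    have e3 : (z : ℤ) + (h + 1) = ((z + 1 : ℕ) : ℤ) + h := by push_cast; ring
    rw [e3]
  rw [Finset.sum_congr rfl fun z _ => e z]
  have h1 := Finset.sum_range_succ (fun z : ℕ => ind h (z : ℝ)) n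
  have h2 := Finset.sum_range_succ' (fun z : ℕ => ind h (z : ℝ)) n
  have h3 : ∑ z ∈ Finset.range n, ind h ((z + 1 : ℕ) : ℝ) - ∑ z ∈ Finset.range n, ind h (z : ℝ) =
      ind h n - ind h ((0 : ℕ) : ℝ) := by linarith
  rw [h3, abs_le]
  constructor <;> linarith [ind_nonneg h n, ind_le_one h n, ind_nonneg h ((0 : ℕ) : ℝ),
    ind_le_one h ((0 : ℕ) : ℝ)]

lemma G_zero (h : ℤ) (n : ℕ) : |G h n - G 0 n| ≤ |(h : ℝ)| := by
  induction h using Int.induction_on with
  | zero => simp
  | succ i ih =>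
    have h1 := G_shift (i : ℤ) n
    have h2 : |G ((i : ℤ) + 1) n - G 0 n| ≤ 1 + |((i : ℤ) : ℝ)| :=
      (abs_sub_le _ (G (i : ℤ) n) _).trans (by linarith)
    refine h2.trans (le_of_eq ?_)
    push_cast
    rw [abs_of_nonneg (Nat.cast_nonneg i), abs_of_nonneg (by positivity)]
    ring
  | pred i ih =>
    have h1 := G_shift (-(i : ℤ) - 1) n
    rw [sub_add_cancel] at h1
    have h2 : |G (-(i : ℤ) - 1) n - G 0 n| ≤ 1 + |((-(i : ℤ) : ℤ) : ℝ)| := by
      refine (abs_sub_le _ (G (-(i : ℤ)) n) _).trans ?_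
      rw [abs_sub_comm (G (-(i : ℤ) - 1) n)]
      linarith
    refine h2.trans (le_of_eq ?_)
    push_cast
    rw [abs_neg, abs_of_nonneg (Nat.cast_nonneg i)]
    have : |(-(i : ℝ) - 1)| = i + 1 := by
      rw [show (-(i : ℝ) - 1) = -((i : ℝ) + 1) by ring, abs_neg, abs_of_nonneg (by positivity)]
    rw [this]
    ring

lemma G_pi (n : ℕ) : G 0 n = (Nat.primeCounting' n : ℝ) := by
  rw [G_nat]
  unfold Nat.primeCounting'
  rw [Nat.count_eq_card_filter_range, Finset.card_eq_sum_ones, Finset.sum_filter]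
  push_cast
  refine Finset.sum_congr rfl fun z _ => ?_
  unfold ind Set.indicator
  simp only [mem_setOf_eq, Int.floor_natCast, add_zero, Int.toNat_natCast]

lemma G_near (h : ℤ) {x : ℝ} (hx : 0 ≤ x) :
    |G h x - (Nat.primeCounting ⌊x⌋₊ : ℝ)| ≤ |(h : ℝ)| + 1 := by
  set n := ⌊x⌋₊ with hn
  have h1 : (n : ℝ) ≤ x := Nat.floor_le hx
  have h2 : x < n + 1 := Nat.lt_floor_add_one x
  have h3 := G_mono h h1
  have h4 : G h x ≤ G h ((n + 1 : ℕ) : ℝ) := G_mono h (by push_cast; exact h2.le)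
  have h5 := G_zero h n
  have h6 := G_zero h (n + 1)
  rw [G_pi] at h5 h6
  have h7 : (Nat.primeCounting n : ℝ) = (Nat.primeCounting' (n + 1) : ℝ) := rfl
  have h8 : (Nat.primeCounting' n : ℝ) ≤ Nat.primeCounting' (n + 1) := by
    exact_mod_cast Nat.monotone_primeCounting' (Nat.le_succ n)
  have h9 : (Nat.primeCounting' (n + 1) : ℝ) ≤ Nat.primeCounting' n + 1 := by
    have : Nat.primeCounting' (n + 1) ≤ Nat.primeCounting' n + 1 := by
      unfold Nat.primeCounting'
      rw [Nat.count_succ]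
      split <;> omega
    exact_mod_cast this
  rw [abs_le] at h5 h6
  rw [h7, abs_le]
  constructor <;> linarith [h5.1, h5.2, h6.1, h6.2]

lemma G_tendsto (h : ℤ) : Tendsto (fun x : ℝ => G h x * Real.log x / x) atTop (𝓝 1) := by
  have h1 := Pool.Agent.Helper923.PNT.pi_tendsto
  have h2 : Tendsto (fun x : ℝ => (|(h : ℝ)| + 1) * (Real.log x / x)) atTop (𝓝 0) := by
    have h3 : Tendsto (fun x : ℝ => Real.log x / x) atTop (𝓝 0) := by
      simpa using Real.tendsto_pow_log_div_mul_add_atTop 1 0 1 one_ne_zero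
    simpa using h3.const_mul (|(h : ℝ)| + 1)
  have h4 : Tendsto (fun x : ℝ => G h x * Real.log x / x -
      (Nat.primeCounting ⌊x⌋₊ : ℝ) * Real.log x / x) atTop (𝓝 0) := by
    refine squeeze_zero_norm' ?_ h2
    filter_upwards [eventually_ge_atTop (1 : ℝ)] with x hx
    have hl : 0 ≤ Real.log x := Real.log_nonneg hx
    have hx0 : (0 : ℝ) < x := by linarith
    rw [show G h x * Real.log x / x - (Nat.primeCounting ⌊x⌋₊ : ℝ) * Real.log x / x =
      (G h x - (Nat.primeCounting ⌊x⌋₊ : ℝ)) * (Real.log x / x) by ring, norm_mul,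
      Real.norm_eq_abs, Real.norm_of_nonneg (by positivity : 0 ≤ Real.log x / x)]
    exact mul_le_mul_of_nonneg_right (G_near h (by linarith)) (by positivity)
  have h5 := h4.add h1
  rw [zero_add] at h5
  refine h5.congr fun x => ?_
  ring

lemma G_scale (h : ℤ) {v : ℝ} (hv : 0 < v) :
    Tendsto (fun a : ℝ => G h (v * a) * Real.log a / a) atTop (𝓝 v) := by
  have h1 : Tendsto (fun a : ℝ => v * a) atTop atTop := tendsto_id.const_mul_atTop hv
  have h2 := (G_tendsto h).comp h1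
  have hl : Tendsto Real.log atTop atTop := Real.tendsto_log_atTop
  have h3 : Tendsto (fun a : ℝ => Real.log a / Real.log (v * a)) atTop (𝓝 1) := by
    have h4 : Tendsto (fun a : ℝ => Real.log v * (Real.log a)⁻¹ + 1) atTop (𝓝 (Real.log v * 0 + 1)) :=
      ((tendsto_inv_atTop_zero.comp hl).const_mul _).add_const 1
    rw [mul_zero, zero_add] at h4
    have h5 := h4.inv₀ one_ne_zero
    rw [inv_one] at h5
    refine h5.congr' ?_
    filter_upwards [eventually_gt_atTop (1 : ℝ)] with a ha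
    have hla : 0 < Real.log a := Real.log_pos ha
    rw [Real.log_mul hv.ne' (by linarith), ← inv_div]
    congr 1
    field_simp
  have h6 := (h2.mul h3).mul_const v
  rw [one_mul, one_mul] at h6
  refine h6.congr' ?_
  filter_upwards [eventually_gt_atTop (1 : ℝ), h1.eventually_gt_atTop 1] with a ha hva
  have hla : 0 < Real.log (v * a) := Real.log_pos hva
  have ha0 : (0 : ℝ) < a := by linarith
  simp only [Function.comp]
  field_simp

/-- first moment -/
lemma first (h : ℤ) {u v : ℝ} (hu : 0 < u) (huv : u < v) :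
    Tendsto (fun a : ℝ => (∫ x in u..v, ind h (x * a)) * Real.log a) atTop (𝓝 (v - u)) := by
  have h1 := (G_scale h (hu.trans huv)).sub (G_scale h hu)
  refine h1.congr' ?_
  filter_upwards [eventually_gt_atTop (0 : ℝ)] with a ha
  rw [intervalIntegral.integral_comp_mul_right _ ha.ne', int_eq, smul_eq_mul]
  field_simp

end Pool.Agent.U441.MS
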