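import Pool.Agent.U441.MS.Ma

/-! Pairs of primes `⌊α a⌋ + h`, `⌊α a y⌋ + h`. -/

set_option autoImplicit false

namespace Pool.Agent.U441.MS

open MeasureTheory Filter Topology Set

lemma ind_add (h : ℤ) {A : ℕ} (hA : |h| ≤ (A : ℤ)) :
    ∃ b : ℕ, ∀ k : ℕ, ind h ((A + k : ℕ) : ℝ) = if (b + k).Prime then 1 else 0 := by
  obtain ⟨b, hb⟩ : ∃ b : ℕ, (A : ℤ) + h = b := by
    have : 0 ≤ (A : ℤ) + h := by linarith [neg_abs_le h]
    exact ⟨((A : ℤ) + h).toNat, (Int.toNat_of_nonneg this).symm⟩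
  refine ⟨b, fun k => ?_⟩
  unfold ind Set.indicator
  have e1 : ⌊((A + k : ℕ) : ℝ)⌋ = ((A + k : ℕ) : ℤ) := Int.floor_natCast _
  have e2 : (((A + k : ℕ) : ℤ) + h).toNat = b + k := by
    have : ((A + k : ℕ) : ℤ) + h = ((b + k : ℕ) : ℤ) := by push_cast; linarith
    rw [this, Int.toNat_natCast]
  simp only [mem_setOf_eq, e1, e2]

/-- Brun-Titchmarsh for the integral -/
lemma bt_int : ∃ C : ℝ, 1 ≤ C ∧ ∀ (h : ℤ) (x y : ℝ), (|h| : ℤ) + 1 ≤ x → 2 ≤ y →
    G h (x + y) - G h x ≤ C * y / Real.log y := by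
  obtain ⟨C, hC1, hC⟩ := Pool.Agent.Helper601.brun_titchmarsh
  refine ⟨3 * C, by linarith, fun h x y hx hy => ?_⟩
  have hx0 : 0 ≤ x := by
    have : (0 : ℝ) ≤ ((|h| : ℤ) : ℝ) := by exact_mod_cast abs_nonneg h
    linarith
  set A := ⌊x⌋₊ with hA
  set N := ⌈y⌉₊ + 1 with hN
  have h1 : (A : ℝ) ≤ x := Nat.floor_le hx0
  have h2 : x < A + 1 := Nat.lt_floor_add_one x
  have h3 : y ≤ ⌈y⌉₊ := Nat.le_ceil y
  have h4 : (⌈y⌉₊ : ℝ) < y + 1 := Nat.ceil_lt_add_one (by linarith)
  have hNr : (N : ℝ) = ⌈y⌉₊ + 1 := by rw [hN]; push_cast; ring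
  have h5 : x + y ≤ ((A + N : ℕ) : ℝ) := by push_cast; rw [hNr]; linarith
  have h6 := G_mono h h5
  have h7 := G_mono h h1
  have hAh : |h| ≤ (A : ℤ) := by
    have : |h| < (A : ℤ) + 1 := by
      have h8 : ((|h| : ℤ) : ℝ) < (A : ℝ) + 1 := by linarith
      exact_mod_cast h8
    omega
  obtain ⟨b, hb⟩ := ind_add h hAh
  have h8 : G h ((A + N : ℕ) : ℝ) - G h A = ∑ k ∈ Finset.range N, ind h ((A + k : ℕ) : ℝ) := by
    rw [G_nat, G_nat, Finset.sum_range_add_sub_sum_range]
  have h9 : ∑ k ∈ Finset.range N, ind h ((A + k : ℕ) : ℝ) =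
      (((Finset.range N).filter (fun k => (b + k * 1).Prime)).card : ℝ) := by
    rw [Finset.card_eq_sum_ones, Finset.sum_filter]
    push_cast
    refine Finset.sum_congr rfl fun k _ => ?_
    have := hb k
    push_cast at this
    rw [this, mul_one]
  have hN2 : 2 ≤ N := by
    have : (2 : ℝ) ≤ N := by rw [hNr]; linarith
    exact_mod_cast this
  have h10 := hC b 1 N hN2 (Or.inl rfl)
  rw [← h9, ← h8] at h10
  have hly : 0 < Real.log y := Real.log_pos (by linarith)
  have hyN : y ≤ N := by rw [hNr]; linarith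
  have hlN : Real.log y ≤ Real.log N := Real.log_le_log (by linarith) hyN
  have hN3 : (N : ℝ) ≤ 3 * y := by rw [hNr]; linarith
  calc G h (x + y) - G h x ≤ C * N / Real.log N := by linarith
    _ ≤ C * N / Real.log y := by gcongr
    _ ≤ C * (3 * y) / Real.log y := by gcongr
    _ = 3 * C * y / Real.log y := by ring

lemma mid_int (h : ℤ) {y : ℝ} (hy : 0 < y) {A B : ℕ} (hAB : A ≤ B) :
    ∫ t in (A : ℝ)..B, ind h t * ind h (t * y) =
      ∑ z ∈ Finset.Ico A B, ind h z * ((G h ((z + 1 : ℕ) * y) - G h (z * y)) / y) := by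
  rw [← intervalIntegral.sum_integral_adjacent_intervals_Ico (a := fun n : ℕ => (n : ℝ)) hAB
    (fun k _ => ind2_int h (fun t => t) (fun t => t * y) measurable_id (by fun_prop) _ _)]
  refine Finset.sum_congr rfl fun z _ => ?_
  have e1 : ∫ t in (z : ℝ)..((z + 1 : ℕ) : ℝ), ind h t * ind h (t * y) =
      ∫ t in (z : ℝ)..((z + 1 : ℕ) : ℝ), ind h z * ind h (t * y) := by
    refine intervalIntegral.integral_congr_ae ?_
    have hne : ∀ᵐ t : ℝ, t ≠ ((z + 1 : ℕ) : ℝ) := by
      simp [ae_iff, measure_singleton]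
    filter_upwards [hne] with t ht ht2
    rw [Set.uIoc_of_le (by push_cast; linarith)] at ht2
    have h3 : ⌊t⌋ = (z : ℤ) := by
      rw [Int.floor_eq_iff]
      have h4 : t < ((z + 1 : ℕ) : ℝ) := lt_of_le_of_ne ht2.2 ht
      push_cast at h4 ⊢
      exact ⟨ht2.1.le, h4⟩
    rw [ind_floor h t z h3]
    simp
  rw [e1, intervalIntegral.integral_const_mul, intervalIntegral.integral_comp_mul_right _ hy.ne',
    int_eq, smul_eq_mul]
  congr 1
  ring

/-- upper bound for pairs -/
theorem pair : ∃ C : ℝ, 1 ≤ C ∧ ∀ (h : ℤ) (u v : ℝ), 0 < u → u < v →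
    ∀ᶠ a : ℝ in atTop, ∀ y : ℝ, 2 ≤ y →
      ∫ x in u..v, ind h (x * a) * ind h (x * (a * y)) ≤
        C * (v - u) / (Real.log a * Real.log y) := by
  obtain ⟨C, hC1, hC⟩ := bt_int
  refine ⟨2 * C, by linarith, fun h u v hu huv => ?_⟩
  have hvu : 0 < v - u := by linarith
  have f1 := first h hu huv
  have f2 : Tendsto (fun a : ℝ => 2 * (Real.log a / a)) atTop (𝓝 0) := by
    have h3 : Tendsto (fun x : ℝ => Real.log x / x) atTop (𝓝 0) := by
      simpa using Real.tendsto_pow_log_div_mul_add_atTop 1 0 1 one_ne_zero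
    simpa using h3.const_mul 2
  have f3 := f1.add f2
  rw [add_zero] at f3
  filter_upwards [f3.eventually_le_const (by linarith : v - u < 2 * (v - u)),
    eventually_gt_atTop (1 : ℝ), (tendsto_id.const_mul_atTop hu).eventually_ge_atTop
      (((|h| : ℤ) : ℝ) + 2)] with a ha1 ha ha2 y hy
  simp only [id_eq] at ha2
  have ha0 : (0 : ℝ) < a := by linarith
  have hla : 0 < Real.log a := Real.log_pos ha
  have hly : 0 < Real.log y := Real.log_pos (by linarith)
  have hy0 : (0 : ℝ) < y := by linarith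
  set A := ⌊u * a⌋₊ with hA
  set B := ⌊v * a⌋₊ + 1 with hB
  have hua : 0 ≤ u * a := by positivity
  have hv : 0 < v := hu.trans huv
  have hva : 0 ≤ v * a := by positivity
  have huva : u * a ≤ v * a := by gcongr
  have hA1 : (A : ℝ) ≤ u * a := Nat.floor_le hua
  have hA2 : u * a < A + 1 := Nat.lt_floor_add_one _
  have hB1 : v * a ≤ (B : ℝ) := by
    rw [hB]; push_cast; exact (Nat.lt_floor_add_one _).le
  have hB2 : (B : ℝ) ≤ v * a + 1 := by
    rw [hB]; push_cast; linarith [Nat.floor_le hva]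
  have hAB : A ≤ B := by
    have : (A : ℝ) ≤ B := by linarith
    exact_mod_cast this
  -- substitute
  have e1 : ∫ x in u..v, ind h (x * a) * ind h (x * (a * y)) =
      (∫ t in (u * a)..(v * a), ind h t * ind h (t * y)) / a := by
    have := intervalIntegral.integral_comp_mul_right (a := u) (b := v)
      (fun t => ind h t * ind h (t * y)) ha0.ne'
    rw [smul_eq_mul] at this
    rw [eq_div_iff ha0.ne', mul_comm, ← mul_right_inj' (inv_ne_zero ha0.ne'), ← this,
      ← mul_assoc, inv_mul_cancel₀ ha0.ne', one_mul]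
    refine intervalIntegral.integral_congr fun x _ => ?_
    simp only [mul_assoc]
  have e2 : ∫ t in (u * a)..(v * a), ind h t * ind h (t * y) ≤
      ∫ t in (A : ℝ)..B, ind h t * ind h (t * y) := by
    refine intervalIntegral.integral_mono_interval hA1 huva hB1
      (ae_of_all _ fun t => mul_nonneg (ind_nonneg h _) (ind_nonneg h _))
      (ind2_int h (fun t => t) (fun t => t * y) measurable_id (by fun_prop) _ _)
  have e3 : ∑ z ∈ Finset.Ico A B, ind h z * ((G h ((z + 1 : ℕ) * y) - G h (z * y)) / y) ≤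
      ∑ z ∈ Finset.Ico A B, ind h z * (C / Real.log y) := by
    refine Finset.sum_le_sum fun z hz => ?_
    refine mul_le_mul_of_nonneg_left ?_ (ind_nonneg h _)
    rw [div_le_iff₀ hy0]
    have hzA : A ≤ z := (Finset.mem_Ico.1 hz).1
    have hzA' : (A : ℝ) ≤ z := by exact_mod_cast hzA
    have hz1 : ((|h| : ℤ) : ℝ) + 1 ≤ z * y := by
      have h0 : (0 : ℝ) ≤ ((|h| : ℤ) : ℝ) := by exact_mod_cast abs_nonneg h
      have : ((|h| : ℤ) : ℝ) + 1 ≤ z := by linarith
      nlinarith
    have := hC h (z * y) y hz1 hy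
    rw [show ((z + 1 : ℕ) : ℝ) * y = z * y + y by push_cast; ring]
    refine this.trans (le_of_eq ?_)
    ring
  have e4 : ∑ z ∈ Finset.Ico A B, ind h z = G h B - G h A := by
    rw [Finset.sum_Ico_eq_sub _ hAB, G_nat, G_nat]
  have e5 : G h B - G h A ≤ G h (v * a) - G h (u * a) + 2 := by
    have h1 := G_lip h hB1
    have h2 := G_lip h hA1
    linarith
  have e6 : (G h (v * a) - G h (u * a) + 2) / a * Real.log a ≤ 2 * (v - u) := by
    rw [intervalIntegral.integral_comp_mul_right _ ha0.ne', int_eq, smul_eq_mul] at ha1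
    refine le_trans (le_of_eq ?_) ha1
    field_simp
  rw [e1]
  calc (∫ t in (u * a)..(v * a), ind h t * ind h (t * y)) / a
      ≤ (∑ z ∈ Finset.Ico A B, ind h z * (C / Real.log y)) / a := by
        rw [mid_int h hy0 hAB] at e2
        exact div_le_div_of_nonneg_right (e2.trans e3) ha0.le
    _ = (G h B - G h A) / a * (C / Real.log y) := by
        rw [← Finset.sum_mul, e4]; ring
    _ ≤ (G h (v * a) - G h (u * a) + 2) / a * (C / Real.log y) := by gcongr
    _ ≤ (2 * (v - u) / Real.log a) * (C / Real.log y) := by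
        refine mul_le_mul_of_nonneg_right ?_ (by positivity)
        rw [le_div_iff₀ hla]
        exact e6
    _ = 2 * C * (v - u) / (Real.log a * Real.log y) := by
        field_simp

end Pool.Agent.U441.MS
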