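import Mathlib

/-! Sums of `1 / (L m - L n)`. -/

set_option autoImplicit false

namespace Pool.Agent.U441.MS

open Filter Topology

/-- gaps -/
lemma gap {L : ℕ → ℝ} {c : ℝ} (hc : 0 < c) {n1 : ℕ} (hn1 : 1 ≤ n1)
    (h1 : ∀ n, n1 ≤ n → L n + c * Real.log n ≤ L (n + 1)) {n : ℕ} (hn : n1 ≤ n) (j : ℕ) :
    c * j * Real.log n ≤ L (n + j) - L n := by
  induction j with
  | zero => simp
  | succ j ih =>
    have h2 := h1 (n + j) (by omega)
    have h3 : Real.log n ≤ Real.log ((n + j : ℕ) : ℝ) :=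
      Real.log_le_log (by exact_mod_cast (by omega : 0 < n)) (by exact_mod_cast Nat.le_add_right n j)
    have h4 : c * Real.log n ≤ c * Real.log ((n + j : ℕ) : ℝ) := mul_le_mul_of_nonneg_left h3 hc.le
    rw [show n + (j + 1) = n + j + 1 by ring]
    push_cast at h4 ⊢
    have h5 : c * ((j : ℝ) + 1) * Real.log n = c * j * Real.log n + c * Real.log n := by ring
    rw [h5]
    push_cast at h2
    linarith

/-- the sum over `m > n` -/
lemma near_sum {L : ℕ → ℝ} {c : ℝ} (hc : 0 < c) {k n1 : ℕ} (hn1 : 3 ≤ n1)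
    (h1 : ∀ n, n1 ≤ n → L n + c * Real.log n ≤ L (n + 1))
    (h2 : ∀ n, n1 ≤ n → L n ≤ (n : ℝ) ^ k) (hL : ∀ n, n1 ≤ n → 0 < L n)
    (h3 : ∀ n, n1 ≤ n → 1 ≤ c * Real.log n) {n : ℕ} (hn : n1 ≤ n) (F : Finset ℕ)
    (hF : ∀ m ∈ F, n < m) :
    ∑ m ∈ F, 1 / (L m - L n) ≤ 2 * ∑ m ∈ F, 1 / L m + (1 + k) / c := by
  have hlog : 1 ≤ Real.log n := by
    have h4 : Real.exp 1 ≤ n := by
      have : (3 : ℝ) ≤ n := by exact_mod_cast hn1.trans hn
      linarith [Real.exp_one_lt_d9]
    rw [Real.le_log_iff_exp_le (by linarith [Real.exp_pos 1])]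
    exact h4
  have hn0 : (0 : ℝ) < n := by exact_mod_cast (by omega : 0 < n)
  set P : ℕ := n ^ k with hP
  have key : ∀ m ∈ F, 1 / (L m - L n) ≤ 2 * (1 / L m) +
      (if m ∈ Finset.Ioc n (n + P) then 1 / (c * ((m - n : ℕ) : ℝ) * Real.log n) else 0) := by
    intro m hm
    have hnm := hF m hm
    obtain ⟨j, rfl⟩ : ∃ j, m = n + j := ⟨m - n, by omega⟩
    have hj : 1 ≤ j := by omega
    have hj' : (1 : ℝ) ≤ j := by exact_mod_cast hj
    have hg := gap hc (by omega) h1 hn j
    have hLm := hL (n + j) (by omega)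
    have hLn := hL n hn
    have hpos : 0 < c * j * Real.log n := by positivity
    have h2L : 0 ≤ 2 * (1 / L (n + j)) := by positivity
    by_cases hcase : 2 * L n ≤ L (n + j)
    · have h5 : L (n + j) / 2 ≤ L (n + j) - L n := by linarith
      have h6 : 1 / (L (n + j) - L n) ≤ 1 / (L (n + j) / 2) :=
        one_div_le_one_div_of_le (by positivity) h5
      have h7 : 1 / (L (n + j) / 2) = 2 * (1 / L (n + j)) := by field_simp
      have h8 : 0 ≤ (if n + j ∈ Finset.Ioc n (n + P) then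
          1 / (c * ((n + j - n : ℕ) : ℝ) * Real.log n) else 0) := by
        split
        · positivity
        · exact le_rfl
      linarith
    · rw [not_le] at hcase
      have h5 : c * j * Real.log n ≤ (n : ℝ) ^ k := by
        have := h2 n hn
        linarith
      have h6 : (j : ℝ) ≤ (n : ℝ) ^ k := by
        have h7 := h3 n hn
        have h8 : (j : ℝ) * 1 ≤ j * (c * Real.log n) := by gcongr
        nlinarith
      have h7 : j ≤ P := by
        rw [hP]
        exact_mod_cast h6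
      rw [if_pos (Finset.mem_Ioc.2 ⟨by omega, by omega⟩)]
      have h8 : (n + j - n : ℕ) = j := by omega
      rw [h8]
      have h9 : 1 / (L (n + j) - L n) ≤ 1 / (c * j * Real.log n) :=
        one_div_le_one_div_of_le hpos hg
      linarith
  refine (Finset.sum_le_sum key).trans ?_
  rw [Finset.sum_add_distrib, ← Finset.mul_sum]
  refine add_le_add le_rfl ?_
  have h4 : ∑ m ∈ F, (if m ∈ Finset.Ioc n (n + P) then
      1 / (c * ((m - n : ℕ) : ℝ) * Real.log n) else 0) ≤
      ∑ m ∈ Finset.Ioc n (n + P), 1 / (c * ((m - n : ℕ) : ℝ) * Real.log n) := by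
    rw [← Finset.sum_filter]
    refine Finset.sum_le_sum_of_subset_of_nonneg ?_ ?_
    · intro m hm
      exact (Finset.mem_filter.1 hm).2
    · intro m _ _
      positivity
  refine h4.trans ?_
  have h5 : ∑ m ∈ Finset.Ioc n (n + P), 1 / (c * ((m - n : ℕ) : ℝ) * Real.log n) =
      ∑ i ∈ Finset.range P, 1 / (c * ((i : ℝ) + 1) * Real.log n) := by
    have e : Finset.Ioc n (n + P) = (Finset.range P).image (fun i => n + (i + 1)) := by
      ext m
      simp only [Finset.mem_Ioc, Finset.mem_image, Finset.mem_range]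
      constructor
      · intro hm
        exact ⟨m - n - 1, by omega, by omega⟩
      · rintro ⟨i, hi, rfl⟩
        omega
    rw [e, Finset.sum_image (by intro a _ b _ hab; simpa using hab)]
    refine Finset.sum_congr rfl fun i _ => ?_
    rw [show n + (i + 1) - n = i + 1 by omega]
    push_cast
    rfl
  rw [h5]
  have h6 : ∑ i ∈ Finset.range P, 1 / (c * ((i : ℝ) + 1) * Real.log n) =
      (1 / (c * Real.log n)) * ((harmonic P : ℚ) : ℝ) := by
    unfold harmonic
    push_cast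
    rw [Finset.mul_sum]
    refine Finset.sum_congr rfl fun i _ => ?_
    have : (0 : ℝ) < (i : ℝ) + 1 := by positivity
    field_simp
  rw [h6]
  have h7 := harmonic_le_one_add_log P
  have h8 : Real.log (P : ℝ) = k * Real.log n := by
    rw [hP]; push_cast; rw [Real.log_pow]
  rw [h8] at h7
  have h9 : (1 + (k : ℝ) * Real.log n) ≤ (1 + k) * Real.log n := by
    nlinarith
  calc 1 / (c * Real.log n) * ((harmonic P : ℚ) : ℝ) ≤ 1 / (c * Real.log n) * ((1 + k) * Real.log n) := by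
        refine mul_le_mul_of_nonneg_left (h7.trans h9) (by positivity)
    _ = (1 + k) / c := by
        field_simp

/-- the double sum -/
lemma double_sum {L : ℕ → ℝ} {c : ℝ} (hc : 0 < c) {k n1 : ℕ} (hn1 : 3 ≤ n1)
    (h1 : ∀ n, n1 ≤ n → L n + c * Real.log n ≤ L (n + 1))
    (h2 : ∀ n, n1 ≤ n → L n ≤ (n : ℝ) ^ k) (hL : ∀ n, n1 ≤ n → 0 < L n)
    (h3 : ∀ n, n1 ≤ n → 1 ≤ c * Real.log n) (F : Finset ℕ) (hF : ∀ m ∈ F, n1 ≤ m) :
    ∑ n ∈ F, ∑ m ∈ F.filter (fun m => n < m), 1 / (L n * (L m - L n)) ≤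
      (∑ n ∈ F, 1 / L n) * (2 * ∑ n ∈ F, 1 / L n + (1 + k) / c) := by
  rw [Finset.sum_mul]
  refine Finset.sum_le_sum fun n hn => ?_
  have hLn := hL n (hF n hn)
  have e : ∑ m ∈ F.filter (fun m => n < m), 1 / (L n * (L m - L n)) =
      1 / L n * ∑ m ∈ F.filter (fun m => n < m), 1 / (L m - L n) := by
    rw [Finset.mul_sum]
    refine Finset.sum_congr rfl fun m _ => ?_
    rw [one_div_mul_one_div]
  rw [e]
  refine mul_le_mul_of_nonneg_left ?_ (by positivity)
  refine (near_sum hc hn1 h1 h2 hL h3 (hF n hn) _ (fun m hm => (Finset.mem_filter.1 hm).2)).trans ?_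
  have : ∑ m ∈ F.filter (fun m => n < m), 1 / L m ≤ ∑ m ∈ F, 1 / L m :=
    Finset.sum_le_sum_of_subset_of_nonneg (Finset.filter_subset _ _)
      (fun m hm _ => (one_div_pos.2 (hL m (hF m hm))).le)
  linarith

end Pool.Agent.U441.MS
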