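import Mathlib

/-! From the first two moments on all intervals to almost every point. -/

set_option autoImplicit false

namespace Pool.Agent.U441.MS

open MeasureTheory Filter Topology Set

lemma dens_point {A : Set ℝ} (hA : MeasurableSet A) (hpos : ∀ x ∈ A, 0 < x) (hvol : volume A ≠ 0)
    {η : ℝ} (hη : 0 < η) :
    ∃ u v : ℝ, 0 < u ∧ u < v ∧ (1 - η) * (v - u) ≤ volume.real (A ∩ Icc u v) := by
  have h1 := IsUnifLocDoublingMeasure.ae_tendsto_measure_inter_div (volume : Measure ℝ) A 1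
  have hne : (ae (volume.restrict A)).NeBot := by
    rw [ae_neBot]
    intro h0
    apply hvol
    have := congrArg (fun μ : Measure ℝ => μ univ) h0
    simpa using this
  obtain ⟨x, hx, hxA⟩ := (h1.and (ae_restrict_mem hA)).exists
  have hx0 := hpos x hxA
  set δ : ℕ → ℝ := fun j => 1 / ((j : ℝ) + 1) with hδ
  have hδ0 : ∀ j, 0 < δ j := fun j => by rw [hδ]; positivity
  have hδt : Tendsto δ atTop (𝓝 0) := tendsto_one_div_add_atTop_nhds_zero_nat
  have hδl : Tendsto δ atTop (𝓝[>] 0) :=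
    tendsto_nhdsWithin_iff.2 ⟨hδt, Eventually.of_forall fun j => hδ0 j⟩
  have h2 := hx (fun _ : ℕ => x) δ hδl (Eventually.of_forall fun j => by
    rw [one_mul]; exact Metric.mem_closedBall_self (hδ0 j).le)
  have h3 : ENNReal.ofReal (1 - η) < 1 := by
    rw [← ENNReal.ofReal_one]
    exact (ENNReal.ofReal_lt_ofReal_iff zero_lt_one).2 (by linarith)
  obtain ⟨j, hj1, hj2⟩ := ((h2.eventually_const_lt h3).and (hδt.eventually_lt_const hx0)).exists
  refine ⟨x - δ j, x + δ j, by linarith, by linarith [hδ0 j], ?_⟩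
  rw [Real.closedBall_eq_Icc] at hj1
  set I := Icc (x - δ j) (x + δ j) with hI
  have hIv : volume I = ENNReal.ofReal (2 * δ j) := by
    rw [hI, Real.volume_Icc]; congr 1; ring
  have hI0 : volume I ≠ 0 := by
    rw [hIv]; exact (ENNReal.ofReal_pos.2 (by linarith [hδ0 j])).ne'
  have hIt : volume I ≠ ⊤ := by rw [hIv]; exact ENNReal.ofReal_ne_top
  have h4 : ENNReal.ofReal (1 - η) * volume I < volume (A ∩ I) :=
    (ENNReal.lt_div_iff_mul_lt (Or.inl hI0) (Or.inl hIt)).1 hj1
  have h5 : volume (A ∩ I) ≠ ⊤ := ne_top_of_le_ne_top hIt (measure_mono inter_subset_right)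
  have h6 := (ENNReal.toReal_lt_toReal (ne_top_of_lt h4) h5).2 h4
  rw [ENNReal.toReal_mul, hIv, ENNReal.toReal_ofReal (by linarith [hδ0 j] : (0:ℝ) ≤ 2 * δ j)] at h6
  have h7 : 1 - η ≤ (ENNReal.ofReal (1 - η)).toReal := by
    rw [ENNReal.toReal_ofReal']
    exact le_max_left _ _
  have h8 : (1 - η) * (x + δ j - (x - δ j)) ≤ (ENNReal.ofReal (1 - η)).toReal * (2 * δ j) := by
    have : x + δ j - (x - δ j) = 2 * δ j := by ring
    rw [this]
    exact mul_le_mul_of_nonneg_right h7 (by linarith [hδ0 j])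
  exact h8.trans h6.le

/-- the lower side: not `≥ 1 + ε` from some point on -/
theorem not_above {R : ℕ → ℝ → ℝ} (hm : ∀ N, Measurable (R N)) (h0 : ∀ N x, 0 ≤ R N x)
    (hi : ∀ N u v, IntervalIntegrable (R N) volume u v)
    (hl : ∀ u v : ℝ, 0 < u → u < v → Tendsto (fun N => ∫ x in u..v, R N x) atTop (𝓝 (v - u)))
    {ε : ℝ} (hε : 0 < ε) (M : ℕ) : volume {x : ℝ | 0 < x ∧ ∀ N, M ≤ N → 1 + ε ≤ R N x} = 0 := by
  by_contra hne
  set A := {x : ℝ | 0 < x ∧ ∀ N, M ≤ N → 1 + ε ≤ R N x} with hA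
  have hAm : MeasurableSet A := by
    have e : A = Ioi 0 ∩ ⋂ N : ℕ, {x : ℝ | M ≤ N → 1 + ε ≤ R N x} := by
      ext x; simp [hA]
    rw [e]
    refine measurableSet_Ioi.inter (MeasurableSet.iInter fun N => ?_)
    by_cases hN : M ≤ N
    · simp only [hN, forall_const]
      exact measurableSet_le measurable_const (hm N)
    · simp [hN]
  obtain ⟨u, v, hu, huv, hd⟩ := dens_point hAm (fun x hx => hx.1) hne
    (η := ε / (2 * (1 + ε))) (by positivity)
  have hvu : 0 < v - u := by linarith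
  have key : ∀ N, M ≤ N → (1 + ε / 2) * (v - u) ≤ ∫ x in u..v, R N x := by
    intro N hN
    have hii : IntegrableOn (R N) (Icc u v) := by
      rw [integrableOn_Icc_iff_integrableOn_Ioc]
      exact (intervalIntegrable_iff_integrableOn_Ioc_of_le huv.le).1 (hi N u v)
    rw [intervalIntegral.integral_of_le huv.le, ← integral_Icc_eq_integral_Ioc]
    have h1 : ∫ x in A ∩ Icc u v, R N x ≤ ∫ x in Icc u v, R N x :=
      setIntegral_mono_set hii (ae_of_all _ fun x => h0 N x) (ae_of_all _ inter_subset_right)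
    have h2 : (1 + ε) * volume.real (A ∩ Icc u v) ≤ ∫ x in A ∩ Icc u v, R N x :=
      setIntegral_ge_of_const_le_real (hAm.inter measurableSet_Icc)
        (ne_top_of_le_ne_top (by rw [Real.volume_Icc]; exact ENNReal.ofReal_ne_top)
          (measure_mono inter_subset_right)) (fun x hx => hx.1.2 N hN)
        (hii.mono_set inter_subset_right)
    have h3 : (1 + ε) * ((1 - ε / (2 * (1 + ε))) * (v - u)) ≤
        (1 + ε) * volume.real (A ∩ Icc u v) := mul_le_mul_of_nonneg_left hd (by linarith)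
    have h4 : (1 + ε) * ((1 - ε / (2 * (1 + ε))) * (v - u)) = (1 + ε / 2) * (v - u) := by
      field_simp
      ring
    linarith
  have := ge_of_tendsto (hl u v hu huv) (eventually_atTop.2 ⟨M, key⟩)
  nlinarith

/-- the upper side: not `≤ 1 - ε` from some point on -/
theorem not_below {R : ℕ → ℝ → ℝ} (hm : ∀ N, Measurable (R N)) {K : ℝ} (hK : 1 ≤ K)
    (hl : ∀ u v : ℝ, 0 < u → u < v → ∃ Q : ℕ → ℝ → ℝ, (∀ N x, 0 ≤ Q N x ∧ Q N x ≤ R N x) ∧
      (∀ N, IntervalIntegrable (Q N) volume u v) ∧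
      (∀ N, IntervalIntegrable (fun x => Q N x ^ 2) volume u v) ∧
      Tendsto (fun N => ∫ x in u..v, Q N x) atTop (𝓝 (v - u)) ∧
      ∀ᶠ N in atTop, ∫ x in u..v, Q N x ^ 2 ≤ K * (v - u))
    {ε : ℝ} (hε : 0 < ε) (hε1 : ε ≤ 1) (M : ℕ) :
    volume {x : ℝ | 0 < x ∧ ∀ N, M ≤ N → R N x ≤ 1 - ε} = 0 := by
  by_contra hne
  set A := {x : ℝ | 0 < x ∧ ∀ N, M ≤ N → R N x ≤ 1 - ε} with hA
  have hAm : MeasurableSet A := by
    have e : A = Ioi 0 ∩ ⋂ N : ℕ, {x : ℝ | M ≤ N → R N x ≤ 1 - ε} := by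
      ext x; simp [hA]
    rw [e]
    refine measurableSet_Ioi.inter (MeasurableSet.iInter fun N => ?_)
    by_cases hN : M ≤ N
    · simp only [hN, forall_const]
      exact measurableSet_le (hm N) measurable_const
    · simp [hN]
  have hK0 : 0 < K := by linarith
  obtain ⟨u, v, hu, huv, hd⟩ := dens_point hAm (fun x hx => hx.1) hne
    (η := ε ^ 2 / (4 * K)) (by positivity)
  have hvu : 0 < v - u := by linarith
  obtain ⟨Q, hQ, hQi, hQ2, hQl, hQK⟩ := hl u v hu huv
  set lam : ℝ := ε / (2 * K) with hlam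
  have hl0 : 0 < lam := by positivity
  have hJt : volume (A ∩ Icc u v) ≠ ⊤ :=
    ne_top_of_le_ne_top (by rw [Real.volume_Icc]; exact ENNReal.ofReal_ne_top)
          (measure_mono inter_subset_right)
  have hJ1 : volume.real (A ∩ Icc u v) ≤ v - u := by
    have : volume.real (A ∩ Icc u v) ≤ volume.real (Icc u v) :=
      measureReal_mono inter_subset_right (by rw [Real.volume_Icc]; exact ENNReal.ofReal_ne_top)
    rwa [Real.volume_real_Icc_of_le huv.le] at this
  have key : ∀ᶠ N in atTop, ∫ x in u..v, Q N x ≤ (1 - ε / 2) * (v - u) := by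
    filter_upwards [hQK, eventually_ge_atTop M] with N hN hNM
    have hii : ∀ {f : ℝ → ℝ}, IntervalIntegrable f volume u v → IntegrableOn f (Icc u v) := by
      intro f hf
      rw [integrableOn_Icc_iff_integrableOn_Ioc]
      exact (intervalIntegrable_iff_integrableOn_Ioc_of_le huv.le).1 hf
    have h1 := hii (hQi N)
    have h2 := hii (hQ2 N)
    rw [intervalIntegral.integral_of_le huv.le, ← integral_Icc_eq_integral_Ioc] at hN ⊢
    have hind : IntegrableOn (A.indicator (fun _ => (1 - ε) - 1 / (2 * lam))) (Icc u v) := by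
      refine IntegrableOn.indicator ?_ hAm
      exact integrableOn_const (by rw [Real.volume_Icc]; exact ENNReal.ofReal_ne_top)
    have hcst : IntegrableOn (fun _ : ℝ => 1 / (2 * lam)) (Icc u v) :=
      integrableOn_const (by rw [Real.volume_Icc]; exact ENNReal.ofReal_ne_top)
    have hsum : IntegrableOn (fun x => lam / 2 * Q N x ^ 2 + 1 / (2 * lam)) (Icc u v) :=
      (h2.const_mul _).add hcst
    have h3 : ∫ x in Icc u v, Q N x ≤ ∫ x in Icc u v, (A.indicator (fun _ => (1 - ε) - 1 / (2 * lam)) x +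
        (lam / 2 * Q N x ^ 2 + 1 / (2 * lam))) := by
      refine setIntegral_mono h1 (hind.add hsum) fun x => ?_
      have hq := hQ N x
      show Q N x ≤ A.indicator (fun _ => (1 - ε) - 1 / (2 * lam)) x + (lam / 2 * Q N x ^ 2 + 1 / (2 * lam))
      by_cases hx : x ∈ A
      · rw [Set.indicator_of_mem hx]
        have h5 : R N x ≤ 1 - ε := hx.2 N hNM
        have h6 : 0 ≤ lam / 2 * Q N x ^ 2 := by positivity
        linarith
      · rw [Set.indicator_of_notMem hx, zero_add]
        have h7 : lam / 2 * Q N x ^ 2 + 1 / (2 * lam) - Q N x = (lam * Q N x - 1) ^ 2 / (2 * lam) := by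
          field_simp
          ring
        have h8 : 0 ≤ (lam * Q N x - 1) ^ 2 / (2 * lam) := by positivity
        linarith
    rw [integral_add hind hsum, integral_add (h2.const_mul _) hcst,
      setIntegral_indicator hAm, setIntegral_const, setIntegral_const, integral_const_mul,
      smul_eq_mul, smul_eq_mul, Real.volume_real_Icc_of_le huv.le, Set.inter_comm] at h3
    have h9 : lam / 2 * ∫ x in Icc u v, Q N x ^ 2 ≤ lam / 2 * (K * (v - u)) :=
      mul_le_mul_of_nonneg_left hN (by positivity)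
    set m := volume.real (A ∩ Icc u v) with hmm
    have e1 : lam / 2 * (K * (v - u)) = ε / 4 * (v - u) := by
      rw [hlam]; field_simp; ring
    have e2 : 1 / (2 * lam) = K / ε := by
      rw [hlam]; field_simp
    rw [e2] at h3
    have h10 : (v - u) - m ≤ ε ^ 2 / (4 * K) * (v - u) := by nlinarith
    have h11 : K / ε * ((v - u) - m) ≤ K / ε * (ε ^ 2 / (4 * K) * (v - u)) :=
      mul_le_mul_of_nonneg_left h10 (by positivity)
    have e3 : K / ε * (ε ^ 2 / (4 * K) * (v - u)) = ε / 4 * (v - u) := by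
      field_simp
    have h12 : m * (1 - ε) ≤ (v - u) * (1 - ε) := mul_le_mul_of_nonneg_right hJ1 (by linarith)
    nlinarith
  have := le_of_tendsto hQl key
  nlinarith

end Pool.Agent.U441.MS
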