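import Pool.Agent.U441.MS.Mb
import Pool.Agent.U441.MS.Mc
import Pool.Agent.U441.MS.Md

/-! Moments of the number of primes `⌊x a n⌋ + h`. -/

set_option autoImplicit false

namespace Pool.Agent.U441.MS

open MeasureTheory Filter Topology Set

/-- a sequence growing at least like a power of the factorial, with logarithms of polynomial size -/
structure Hyp (a : ℕ → ℝ) (c : ℝ) (k n1 : ℕ) : Prop where
  c0 : 0 < c
  n3 : 3 ≤ n1
  pos : ∀ n, n1 ≤ n → 1 < a n
  grow : ∀ n, n1 ≤ n → Real.log (a n) + c * Real.log n ≤ Real.log (a (n + 1))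
  poly : ∀ n, n1 ≤ n → Real.log (a n) ≤ (n : ℝ) ^ k
  one : ∀ n, n1 ≤ n → 1 ≤ c * Real.log n

lemma Hyp.log_pos {a : ℕ → ℝ} {c : ℝ} {k n1 : ℕ} (H : Hyp a c k n1) {n : ℕ} (hn : n1 ≤ n) :
    0 < Real.log (a n) := Real.log_pos (H.pos n hn)

lemma Hyp.tendsto {a : ℕ → ℝ} {c : ℝ} {k n1 : ℕ} (H : Hyp a c k n1) : Tendsto a atTop atTop := by
  have h1 : ∀ j : ℕ, (j : ℝ) ≤ a (j + n1) := by
    intro j
    have h2 := gap (L := fun n => Real.log (a n)) H.c0 (by have := H.n3; omega) H.grow le_rfl j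
    have h3 := H.one n1 le_rfl
    have h4 : (j : ℝ) ≤ c * j * Real.log n1 := by
      have : (j : ℝ) * 1 ≤ j * (c * Real.log n1) := by gcongr
      linarith
    have h5 := H.log_pos (le_refl n1)
    have h6 : (j : ℝ) ≤ Real.log (a (n1 + j)) := by linarith
    have h7 := H.pos (n1 + j) (by omega)
    have h8 := Real.log_le_sub_one_of_pos (by linarith : 0 < a (n1 + j))
    rw [add_comm]
    linarith
  rw [← tendsto_add_atTop_iff_nat n1]
  exact tendsto_atTop_mono h1 tendsto_natCast_atTop_atTop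

lemma sum_symm (F : Finset ℕ) (f : ℕ → ℕ → ℝ) (hf : ∀ n m, f n m = f m n) :
    ∑ n ∈ F, ∑ m ∈ F, f n m = ∑ n ∈ F, f n n + 2 * ∑ n ∈ F, ∑ m ∈ F.filter (fun m => n < m), f n m := by
  have e1 : ∀ n ∈ F, ∑ m ∈ F, f n m = f n n + ∑ m ∈ F.filter (fun m => n < m), f n m +
      ∑ m ∈ F.filter (fun m => m < n), f n m := by
    intro n hn
    rw [Finset.sum_filter, Finset.sum_filter]
    have e2 : f n n = ∑ m ∈ F, if m = n then f n m else 0 := by
      rw [Finset.sum_ite_eq' F n]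
      simp [hn]
    rw [e2, ← Finset.sum_add_distrib, ← Finset.sum_add_distrib]
    refine Finset.sum_congr rfl fun m _ => ?_
    rcases lt_trichotomy m n with h | h | h
    · simp [h, h.ne, not_lt.2 h.le]
    · simp [h]
    · simp [h, h.ne', not_lt.2 h.le]
  rw [Finset.sum_congr rfl e1, Finset.sum_add_distrib, Finset.sum_add_distrib]
  have e3 : ∑ n ∈ F, ∑ m ∈ F.filter (fun m => m < n), f n m =
      ∑ n ∈ F, ∑ m ∈ F.filter (fun m => n < m), f n m := by
    simp only [Finset.sum_filter]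
    rw [Finset.sum_comm]
    refine Finset.sum_congr rfl fun n _ => Finset.sum_congr rfl fun m _ => ?_
    rw [hf m n]
  rw [e3]
  ring

/-- the number of `n ∈ F` for which `⌊x a n⌋ + h` is prime -/
noncomputable def T (a : ℕ → ℝ) (h : ℤ) (F : Finset ℕ) (x : ℝ) : ℝ := ∑ n ∈ F, ind h (x * a n)

lemma T_nonneg (a : ℕ → ℝ) (h : ℤ) (F : Finset ℕ) (x : ℝ) : 0 ≤ T a h F x :=
  Finset.sum_nonneg fun _ _ => ind_nonneg _ _

lemma T_meas (a : ℕ → ℝ) (h : ℤ) (F : Finset ℕ) : Measurable (T a h F) :=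
  Finset.measurable_fun_sum F fun n _ => (ind_meas h).comp (by fun_prop)

lemma T_sq (a : ℕ → ℝ) (h : ℤ) (F : Finset ℕ) (x : ℝ) :
    T a h F x ^ 2 = ∑ n ∈ F, ∑ m ∈ F, ind h (x * a n) * ind h (x * a m) := by
  unfold T
  rw [sq, Finset.sum_mul_sum]

lemma T_int (a : ℕ → ℝ) (h : ℤ) (F : Finset ℕ) (u v : ℝ) :
    IntervalIntegrable (T a h F) volume u v := by
  have e : T a h F = ∑ n ∈ F, (fun x => ind h (x * a n)) := by
    ext x
    simp [T, Finset.sum_apply]
  rw [e]
  exact IntervalIntegrable.sum F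
    (fun n _ => ind_int h (fun x => x * a n) (by fun_prop) u v)

lemma T_sq_int (a : ℕ → ℝ) (h : ℤ) (F : Finset ℕ) (u v : ℝ) :
    IntervalIntegrable (fun x => T a h F x ^ 2) volume u v := by
  refine (intervalIntegrable_const (c := (F.card : ℝ) ^ 2)).mono_fun
    ((T_meas a h F).pow_const 2).aestronglyMeasurable (ae_of_all _ fun x => ?_)
  show ‖T a h F x ^ 2‖ ≤ ‖(F.card : ℝ) ^ 2‖
  rw [Real.norm_of_nonneg (by positivity), Real.norm_of_nonneg (by positivity)]
  refine pow_le_pow_left₀ (T_nonneg a h F x) ?_ 2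
  unfold T
  calc ∑ n ∈ F, ind h (x * a n) ≤ ∑ _n ∈ F, (1 : ℝ) := Finset.sum_le_sum fun _ _ => ind_le_one _ _
    _ = F.card := by simp

lemma int_T (a : ℕ → ℝ) (h : ℤ) (F : Finset ℕ) (u v : ℝ) :
    ∫ x in u..v, T a h F x = ∑ n ∈ F, ∫ x in u..v, ind h (x * a n) := by
  unfold T
  exact intervalIntegral.integral_finset_sum fun n _ =>
    ind_int h (fun x => x * a n) (by fun_prop) u v

lemma int_T_sq (a : ℕ → ℝ) (h : ℤ) (F : Finset ℕ) (u v : ℝ) :
    ∫ x in u..v, T a h F x ^ 2 =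
      ∑ n ∈ F, ∑ m ∈ F, ∫ x in u..v, ind h (x * a n) * ind h (x * a m) := by
  simp only [T_sq]
  rw [intervalIntegral.integral_finset_sum]
  · refine Finset.sum_congr rfl fun n _ => ?_
    rw [intervalIntegral.integral_finset_sum]
    exact fun m _ => ind2_int h (fun x => x * a n) (fun x => x * a m) (by fun_prop) (by fun_prop) u v
  · intro n _
    have e : (fun x => ∑ m ∈ F, ind h (x * a n) * ind h (x * a m)) =
        ∑ m ∈ F, (fun x => ind h (x * a n) * ind h (x * a m)) := by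
      ext x
      simp [Finset.sum_apply]
    rw [e]
    exact IntervalIntegrable.sum F
      (fun m _ => ind2_int h (fun x => x * a n) (fun x => x * a m) (by fun_prop) (by fun_prop) u v)

/-- the second moment -/
theorem second : ∃ C : ℝ, 1 ≤ C ∧ ∀ (a : ℕ → ℝ) (c : ℝ) (k n1 : ℕ), Hyp a c k n1 →
    ∀ (h : ℤ) (u v : ℝ), 0 < u → u < v → ∃ n2 : ℕ, n1 ≤ n2 ∧ ∀ F : Finset ℕ, (∀ n ∈ F, n2 ≤ n) →
      ∫ x in u..v, T a h F x ^ 2 ≤ (2 + 2 * C * (1 + k) / c) * (v - u) * (∑ n ∈ F, 1 / Real.log (a n)) +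
        4 * C * (v - u) * (∑ n ∈ F, 1 / Real.log (a n)) ^ 2 := by
  obtain ⟨C, hC1, hC⟩ := pair
  refine ⟨C, hC1, fun a c k n1 H h u v hu huv => ?_⟩
  have hvu : 0 < v - u := by linarith
  have ht := H.tendsto
  have f1 := ((first h hu huv).comp ht).eventually_le_const (by linarith : v - u < 2 * (v - u))
  have f2 := ht.eventually (hC h u v hu huv)
  obtain ⟨n2, hn2⟩ := eventually_atTop.1 (f1.and f2)
  refine ⟨max n1 n2, le_max_left _ _, fun F hF => ?_⟩
  have hF1 : ∀ n ∈ F, n1 ≤ n := fun n hn => (le_max_left _ _).trans (hF n hn)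
  have hF2 : ∀ n ∈ F, n2 ≤ n := fun n hn => (le_max_right _ _).trans (hF n hn)
  rw [int_T_sq, sum_symm F _ (fun n m => by simp only [mul_comm])]
  set W := ∑ n ∈ F, 1 / Real.log (a n) with hW
  have d1 : ∑ n ∈ F, ∫ x in u..v, ind h (x * a n) * ind h (x * a n) ≤ 2 * (v - u) * W := by
    rw [hW, Finset.mul_sum]
    refine Finset.sum_le_sum fun n hn => ?_
    have h1 := (hn2 n (hF2 n hn)).1
    simp only [Function.comp] at h1
    simp only [ind_sq]
    rw [mul_one_div, le_div_iff₀ (H.log_pos (hF1 n hn))]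
    exact h1
  have d2 : ∑ n ∈ F, ∑ m ∈ F.filter (fun m => n < m), ∫ x in u..v, ind h (x * a n) * ind h (x * a m) ≤
      C * (v - u) * (W * (2 * W + (1 + k) / c)) := by
    have h3 := double_sum (L := fun n => Real.log (a n)) H.c0 H.n3 H.grow H.poly
      (fun n hn => H.log_pos hn) H.one F hF1
    refine le_trans ?_ (mul_le_mul_of_nonneg_left h3 (by positivity : 0 ≤ C * (v - u)))
    rw [Finset.mul_sum]
    refine Finset.sum_le_sum fun n hn => ?_
    rw [Finset.mul_sum]
    refine Finset.sum_le_sum fun m hm => ?_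
    obtain ⟨hmF, hnm⟩ := Finset.mem_filter.1 hm
    have h4 := (hn2 n (hF2 n hn)).2
    have hpn := H.pos n (hF1 n hn)
    have hpm := H.pos m (hF1 m hmF)
    have han : 0 < a n := by linarith
    have ham : 0 < a m := by linarith
    have hlog : Real.log (a m / a n) = Real.log (a m) - Real.log (a n) :=
      Real.log_div ham.ne' han.ne'
    have hy : 2 ≤ a m / a n := by
      obtain ⟨j, rfl⟩ : ∃ j, m = n + j := ⟨m - n, by omega⟩
      have hj : 1 ≤ j := by omega
      have hg := gap (L := fun n => Real.log (a n)) H.c0 (by have := H.n3; omega) H.grow (hF1 n hn) j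
      have h5 : 1 ≤ c * j * Real.log n := by
        have h6 := H.one n (hF1 n hn)
        have h7 : (1 : ℝ) ≤ j := by exact_mod_cast hj
        nlinarith
      have h6 : 1 ≤ Real.log (a (n + j) / a n) := by rw [hlog]; linarith
      rw [Real.le_log_iff_exp_le (by positivity)] at h6
      linarith [Real.exp_one_gt_d9]
    have h5 := h4 (a m / a n) hy
    rw [mul_div_cancel₀ _ han.ne', hlog] at h5
    refine h5.trans (le_of_eq ?_)
    rw [mul_one_div]
  have e : (2 + 2 * C * (1 + k) / c) * (v - u) * W + 4 * C * (v - u) * W ^ 2 =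
      2 * (v - u) * W + 2 * (C * (v - u) * (W * (2 * W + (1 + k) / c))) := by ring
  rw [e]
  linarith

end Pool.Agent.U441.MS
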