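import Pool.Agent.U441.MS.Me

/-! The law for almost every `x`. -/

set_option autoImplicit false

namespace Pool.Agent.U441.MS

open MeasureTheory Filter Topology Set

open Classical in
/-- the elements `≤ N` of `S` -/
noncomputable def FS (S : Set ℕ) (N : ℕ) : Finset ℕ := (Finset.range (N + 1)).filter (fun n => n ∈ S)

open Classical in
/-- the elements `≤ N` of `S` which are at least `n0` -/
noncomputable def FS0 (S : Set ℕ) (n0 N : ℕ) : Finset ℕ := (FS S N).filter (fun n => n0 ≤ n)

/-- the expected number -/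
noncomputable def W (a : ℕ → ℝ) (S : Set ℕ) (N : ℕ) : ℝ := ∑ n ∈ FS S N, 1 / Real.log (a n)

/-- weighted mean of a sequence with limit -/
lemma cesaro {w f : ℕ → ℝ} (S : Set ℕ) (hw : ∀ n, 0 ≤ w n) {l : ℝ} (hf : Tendsto f atTop (𝓝 l))
    (hW : Tendsto (fun N => ∑ n ∈ FS S N, w n) atTop atTop) (n0 : ℕ) :
    Tendsto (fun N => (∑ n ∈ FS0 S n0 N, w n * f n) / ∑ n ∈ FS S N, w n) atTop (𝓝 l) := by
  classical
  have h1 : ∀ N, ∑ n ∈ FS0 S n0 N, w n * f n - l * ∑ n ∈ FS S N, w n =
      ∑ n ∈ Finset.range (N + 1), (if n ∈ S then w n * (if n0 ≤ n then f n else 0) - l * w n else 0) := by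
    intro N
    unfold FS0 FS
    rw [Finset.filter_filter, Finset.sum_filter, Finset.sum_filter, Finset.mul_sum,
      ← Finset.sum_sub_distrib]
    refine Finset.sum_congr rfl fun n _ => ?_
    by_cases h2 : n ∈ S <;> by_cases h3 : n0 ≤ n <;> simp [h2, h3]
  have h2 : (fun n => if n ∈ S then w n * (if n0 ≤ n then f n else 0) - l * w n else 0) =o[atTop]
      (fun n => if n ∈ S then w n else 0) := by
    rw [Asymptotics.isLittleO_iff]
    intro ε hε
    have h3 : ∀ᶠ n in atTop, |f n - l| ≤ ε := by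
      have := (tendsto_iff_norm_sub_tendsto_zero.1 hf).eventually_le_const hε
      simpa [Real.norm_eq_abs] using this
    filter_upwards [h3, eventually_ge_atTop n0] with n hn hn0
    by_cases hS : n ∈ S
    · simp only [hS, if_true, hn0]
      rw [show w n * f n - l * w n = (f n - l) * w n by ring, norm_mul, Real.norm_eq_abs]
      exact mul_le_mul_of_nonneg_right hn (norm_nonneg _)
    · simp [hS]
  have h3 : Tendsto (fun N => ∑ n ∈ Finset.range N, (if n ∈ S then w n else 0)) atTop atTop := by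
    rw [← tendsto_add_atTop_iff_nat 1]
    refine hW.congr fun N => ?_
    unfold FS
    rw [Finset.sum_filter]
  have h4 := h2.sum_range (fun n => by
    show (0 : ℝ) ≤ if n ∈ S then w n else 0
    split
    exacts [hw n, le_rfl]) h3
  have h5 := h4.tendsto_div_nhds_zero
  have h6 := (tendsto_add_atTop_iff_nat 1).2 h5
  have h7 : Tendsto (fun N => (∑ n ∈ FS0 S n0 N, w n * f n) / ∑ n ∈ FS S N, w n - l) atTop (𝓝 0) := by
    refine h6.congr' ?_
    filter_upwards [hW.eventually_gt_atTop 0] with N hN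
    have e : ∑ n ∈ Finset.range (N + 1), (if n ∈ S then w n else 0) = ∑ n ∈ FS S N, w n := by
      unfold FS
      rw [Finset.sum_filter]
    rw [← h1, e, sub_div, mul_div_cancel_right₀ _ hN.ne']
  have h8 := h7.add_const l
  rw [zero_add] at h8
  refine h8.congr fun N => ?_
  ring

/-- the first moment of the counts -/
lemma first_T {a : ℕ → ℝ} (ha : ∀ n, 1 ≤ a n) (hat : Tendsto a atTop atTop) (S : Set ℕ)
    (hW : Tendsto (W a S) atTop atTop) (h : ℤ) (n0 : ℕ) {u v : ℝ} (hu : 0 < u) (huv : u < v) :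
    Tendsto (fun N => ∫ x in u..v, T a h (FS0 S n0 N) x / W a S N) atTop (𝓝 (v - u)) := by
  have h1 := (first h hu huv).comp hat
  obtain ⟨n3, hn3⟩ := eventually_atTop.1 (hat.eventually_gt_atTop 1)
  have h2 := cesaro (w := fun n => 1 / Real.log (a n)) S
    (fun n => one_div_nonneg.2 (Real.log_nonneg (ha n))) h1 hW (max n0 n3)
  have h3 : ∀ N, ∫ x in u..v, T a h (FS0 S n0 N) x / W a S N =
      (∑ n ∈ FS0 S n0 N, ∫ x in u..v, ind h (x * a n)) / W a S N := by
    intro N
    rw [intervalIntegral.integral_div, int_T]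
  simp only [h3]
  -- finitely many terms do not matter
  have h4 : ∀ N, |(∑ n ∈ FS0 S n0 N, ∫ x in u..v, ind h (x * a n)) -
      ∑ n ∈ FS0 S (max n0 n3) N, ∫ x in u..v, ind h (x * a n)| ≤ (max n0 n3) * (v - u) := by
    intro N
    classical
    have e1 : FS0 S (max n0 n3) N ⊆ FS0 S n0 N := by
      intro n hn
      rw [FS0, Finset.mem_filter] at hn ⊢
      exact ⟨hn.1, (le_max_left _ _).trans hn.2⟩
    rw [← Finset.sum_sdiff e1, add_sub_cancel_right]
    have b0 : ∀ n, 0 ≤ ∫ x in u..v, ind h (x * a n) := fun n =>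
      intervalIntegral.integral_nonneg huv.le fun _ _ => ind_nonneg _ _
    have b1 : ∀ n, ∫ x in u..v, ind h (x * a n) ≤ v - u := by
      intro n
      calc ∫ x in u..v, ind h (x * a n) ≤ ∫ _x in u..v, (1 : ℝ) :=
            intervalIntegral.integral_mono_on huv.le
              (ind_int h (fun x => x * a n) (by fun_prop) u v) intervalIntegrable_const
              fun _ _ => ind_le_one _ _
        _ = v - u := by simp
    rw [abs_of_nonneg (Finset.sum_nonneg fun n _ => b0 n)]
    have e2 : FS0 S n0 N \ FS0 S (max n0 n3) N ⊆ Finset.range (max n0 n3) := by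
      intro n hn
      rw [Finset.mem_sdiff, FS0, FS0, Finset.mem_filter, Finset.mem_filter] at hn
      rw [Finset.mem_range]
      by_contra hc
      exact hn.2 ⟨hn.1.1, not_lt.1 hc⟩
    calc ∑ n ∈ FS0 S n0 N \ FS0 S (max n0 n3) N, ∫ x in u..v, ind h (x * a n)
        ≤ ∑ n ∈ Finset.range (max n0 n3), ∫ x in u..v, ind h (x * a n) :=
          Finset.sum_le_sum_of_subset_of_nonneg e2 fun n _ _ => b0 n
      _ ≤ ∑ _n ∈ Finset.range (max n0 n3), (v - u) := Finset.sum_le_sum fun n _ => b1 n
      _ = ((max n0 n3 : ℕ) : ℝ) * (v - u) := by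
          rw [Finset.sum_const, Finset.card_range, nsmul_eq_mul]
      _ = _ := by push_cast; rfl
  have h5 : Tendsto (fun N => ((∑ n ∈ FS0 S n0 N, ∫ x in u..v, ind h (x * a n)) -
      ∑ n ∈ FS0 S (max n0 n3) N, ∫ x in u..v, ind h (x * a n)) / W a S N) atTop (𝓝 0) := by
    have h6 : Tendsto (fun N => (max n0 n3) * (v - u) * (W a S N)⁻¹) atTop (𝓝 0) := by
      simpa using (tendsto_inv_atTop_zero.comp hW).const_mul ((max n0 n3) * (v - u))
    refine squeeze_zero_norm' ?_ h6
    filter_upwards [hW.eventually_gt_atTop 0] with N hN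
    rw [norm_div, Real.norm_eq_abs, Real.norm_of_nonneg hN.le, div_eq_mul_inv]
    exact mul_le_mul_of_nonneg_right (h4 N) (by positivity)
  have h7 : Tendsto (fun N => (∑ n ∈ FS0 S (max n0 n3) N, ∫ x in u..v, ind h (x * a n)) / W a S N)
      atTop (𝓝 (v - u)) := by
    refine h2.congr fun N => ?_
    unfold W
    congr 1
    refine Finset.sum_congr rfl fun n hn => ?_
    have hn' : n3 ≤ n := by
      rw [FS0, Finset.mem_filter] at hn
      exact (le_max_right _ _).trans hn.2
    have hl : 0 < Real.log (a n) := Real.log_pos (hn3 n hn')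
    simp only [Function.comp]
    rw [one_div, mul_comm, mul_assoc, mul_inv_cancel₀ hl.ne', mul_one]
  have h8 := h5.add h7
  rw [zero_add] at h8
  refine h8.congr fun N => ?_
  ring

end Pool.Agent.U441.MS
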