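import Pool.Agent.U441.MS.Mf

/-! The law for almost every `x`: conclusions. -/

set_option autoImplicit false

namespace Pool.Agent.U441.MS

open MeasureTheory Filter Topology Set

lemma ev_hyp {a : ℕ → ℝ} (ha : ∀ n, 1 ≤ a n) {c : ℝ} (hc : 0 < c) {k : ℕ}
    (h1 : ∀ᶠ n : ℕ in atTop, (n : ℝ) ^ c * a n ≤ a (n + 1))
    (h2 : ∀ᶠ n : ℕ in atTop, Real.log (a n) ≤ (n : ℝ) ^ k) : ∃ n1, Hyp a c k n1 := by
  have h3 : ∀ᶠ n : ℕ in atTop, 1 ≤ c * Real.log n :=
    ((Real.tendsto_log_atTop.comp tendsto_natCast_atTop_atTop).const_mul_atTop hc).eventually_ge_atTop 1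
  obtain ⟨n0, hn0⟩ := eventually_atTop.1 ((h1.and h2).and h3)
  set n1 := max (n0 + 1) 3 with hn1
  have hgrow : ∀ n, n0 ≤ n → Real.log (a n) + c * Real.log n ≤ Real.log (a (n + 1)) := by
    intro n hn
    have h4 := (hn0 n hn).1.1
    have h5 := (hn0 n hn).2
    have h6 : (0 : ℝ) < n := by
      rcases Nat.eq_zero_or_pos n with h | h
      · rw [h] at h5; norm_num at h5
      · exact_mod_cast h
    have h7 : 0 < (n : ℝ) ^ c := Real.rpow_pos_of_pos h6 c
    have h8 : 0 < a n := by linarith [ha n]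
    have h9 := Real.log_le_log (by positivity) h4
    rw [Real.log_mul h7.ne' h8.ne', Real.log_rpow h6] at h9
    linarith
  refine ⟨n1, hc, le_max_right _ _, ?_, ?_, ?_, ?_⟩
  · intro n hn
    obtain ⟨m, rfl⟩ : ∃ m, n = m + 1 := ⟨n - 1, by have := (le_max_right (n0 + 1) 3).trans hn; omega⟩
    have hm : n0 ≤ m := by have := (le_max_left (n0 + 1) 3).trans hn; omega
    have h4 := hgrow m hm
    have h5 := (hn0 m hm).2
    have h6 : 0 ≤ Real.log (a m) := Real.log_nonneg (ha m)
    have h7 : 0 < Real.log (a (m + 1)) := by linarith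
    exact (Real.log_pos_iff (by linarith [ha (m + 1)])).1 h7
  · intro n hn
    exact hgrow n (by have := (le_max_left (n0 + 1) 3).trans hn; omega)
  · intro n hn
    exact (hn0 n (by have := (le_max_left (n0 + 1) 3).trans hn; omega)).1.2
  · intro n hn
    exact (hn0 n (by have := (le_max_left (n0 + 1) 3).trans hn; omega)).2

lemma T_mono (a : ℕ → ℝ) (h : ℤ) {F F' : Finset ℕ} (hF : F ⊆ F') (x : ℝ) : T a h F x ≤ T a h F' x :=
  Finset.sum_le_sum_of_subset_of_nonneg hF fun _ _ _ => ind_nonneg _ _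

lemma FS0_sub (S : Set ℕ) (n0 N : ℕ) : FS0 S n0 N ⊆ FS S N := Finset.filter_subset _ _

lemma FS0_zero (S : Set ℕ) (N : ℕ) : FS0 S 0 N = FS S N := by
  unfold FS0
  exact Finset.filter_true_of_mem fun _ _ => Nat.zero_le _

/-- almost every point, one shift, one `ε` -/
theorem ae_one {a : ℕ → ℝ} (ha : ∀ n, 1 ≤ a n) {c : ℝ} (hc : 0 < c) {k : ℕ}
    (h1 : ∀ᶠ n : ℕ in atTop, (n : ℝ) ^ c * a n ≤ a (n + 1))
    (h2 : ∀ᶠ n : ℕ in atTop, Real.log (a n) ≤ (n : ℝ) ^ k) (S : Set ℕ)
    (hW : Tendsto (W a S) atTop atTop) (h : ℤ) {ε : ℝ} (hε : 0 < ε) (hε1 : ε ≤ 1) :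
    ∀ᵐ x : ℝ, 0 < x → (∃ᶠ N in atTop, (1 - ε) * W a S N < T a h (FS S N) x) ∧
      (∃ᶠ N in atTop, T a h (FS S N) x < (1 + ε) * W a S N) := by
  obtain ⟨n1, H⟩ := ev_hyp ha hc h1 h2
  have hat := H.tendsto
  obtain ⟨C, hC1, hC⟩ := second
  set R : ℕ → ℝ → ℝ := fun N x => T a h (FS S N) x / W a S N with hR
  have hW0 : ∀ N, 0 ≤ W a S N := fun N =>
    Finset.sum_nonneg fun n _ => one_div_nonneg.2 (Real.log_nonneg (ha n))
  have hRm : ∀ N, Measurable (R N) := fun N => (T_meas a h _).div_const _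
  have hR0 : ∀ N x, 0 ≤ R N x := fun N x => div_nonneg (T_nonneg a h _ x) (hW0 N)
  have hRi : ∀ N u v, IntervalIntegrable (R N) volume u v := fun N u v =>
    (T_int a h (FS S N) u v).div_const _
  have hRl : ∀ u v : ℝ, 0 < u → u < v → Tendsto (fun N => ∫ x in u..v, R N x) atTop (𝓝 (v - u)) := by
    intro u v hu huv
    have := first_T ha hat S hW h 0 hu huv
    refine this.congr fun N => ?_
    rw [FS0_zero]
  have key1 := fun M : ℕ => not_above hRm hR0 hRi hRl hε M
  set K : ℝ := 2 + 2 * C * (1 + k) / c + 4 * C with hK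
  have hK1 : 1 ≤ K := by
    rw [hK]
    have : 0 ≤ 2 * C * (1 + k) / c := by positivity
    linarith
  have key2 := fun M : ℕ => not_below hRm hK1 (fun u v hu huv => by
    obtain ⟨n2, hn2, hF⟩ := hC a c k n1 H h u v hu huv
    refine ⟨fun N x => T a h (FS0 S n2 N) x / W a S N, fun N x => ⟨div_nonneg (T_nonneg a h _ x) (hW0 N),
      div_le_div_of_nonneg_right (T_mono a h (FS0_sub S n2 N) x) (hW0 N)⟩,
      fun N => (T_int a h _ u v).div_const _, fun N => ?_, first_T ha hat S hW h n2 hu huv, ?_⟩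
    · simp only [div_pow]
      exact (T_sq_int a h _ u v).div_const _
    · filter_upwards [hW.eventually_ge_atTop 1] with N hN
      simp only [div_pow]
      rw [intervalIntegral.integral_div, div_le_iff₀ (by positivity)]
      have h3 := hF (FS0 S n2 N) (fun n hn => by
        rw [FS0, Finset.mem_filter] at hn
        exact hn.2)
      have h4 : ∑ n ∈ FS0 S n2 N, 1 / Real.log (a n) ≤ W a S N :=
        Finset.sum_le_sum_of_subset_of_nonneg (FS0_sub S n2 N)
          fun n _ _ => one_div_nonneg.2 (Real.log_nonneg (ha n))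
      have h5 : 0 ≤ ∑ n ∈ FS0 S n2 N, 1 / Real.log (a n) :=
        Finset.sum_nonneg fun n _ => one_div_nonneg.2 (Real.log_nonneg (ha n))
      set w := ∑ n ∈ FS0 S n2 N, 1 / Real.log (a n) with hw
      have hvu : 0 < v - u := by linarith
      have h6 : w ≤ W a S N ^ 2 := by nlinarith
      have h7 : w ^ 2 ≤ W a S N ^ 2 := by gcongr
      have h8 : 0 ≤ 2 * C * (1 + k) / c := by positivity
      calc ∫ x in u..v, T a h (FS0 S n2 N) x ^ 2
          ≤ (2 + 2 * C * (1 + k) / c) * (v - u) * w + 4 * C * (v - u) * w ^ 2 := h3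
        _ ≤ (2 + 2 * C * (1 + k) / c) * (v - u) * W a S N ^ 2 + 4 * C * (v - u) * W a S N ^ 2 := by
            gcongr
        _ = K * (v - u) * W a S N ^ 2 := by rw [hK]; ring) hε hε1 M
  have n1' : ∀ᵐ x : ℝ, ∀ M : ℕ, ¬ (0 < x ∧ ∀ N, M ≤ N → 1 + ε ≤ R N x) :=
    ae_all_iff.2 fun M => (measure_eq_zero_iff_ae_notMem.1 (key1 M))
  have n2' : ∀ᵐ x : ℝ, ∀ M : ℕ, ¬ (0 < x ∧ ∀ N, M ≤ N → R N x ≤ 1 - ε) :=
    ae_all_iff.2 fun M => (measure_eq_zero_iff_ae_notMem.1 (key2 M))
  filter_upwards [n1', n2'] with x hx1 hx2 hx0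
  have hWe := hW.eventually_gt_atTop 0
  refine ⟨?_, ?_⟩
  · intro hcon
    obtain ⟨M, hM⟩ := eventually_atTop.1 (hcon.and hWe)
    refine hx2 M ⟨hx0, fun N hN => ?_⟩
    have h3 := (hM N hN).1
    have h4 := (hM N hN).2
    rw [not_lt] at h3
    show T a h (FS S N) x / W a S N ≤ 1 - ε
    rw [div_le_iff₀ h4]
    exact h3
  · intro hcon
    obtain ⟨M, hM⟩ := eventually_atTop.1 (hcon.and hWe)
    refine hx1 M ⟨hx0, fun N hN => ?_⟩
    have h3 := (hM N hN).1
    have h4 := (hM N hN).2
    rw [not_lt] at h3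
    show 1 + ε ≤ T a h (FS S N) x / W a S N
    rw [le_div_iff₀ h4]
    exact h3

/-- the convergent case -/
theorem ae_fin {a : ℕ → ℝ} (ha : ∀ n, 1 ≤ a n) (hat : Tendsto a atTop atTop) (S : Set ℕ)
    (hS : Summable (S.indicator fun n => 1 / Real.log (a n))) (h : ℤ) :
    ∀ᵐ x : ℝ, 0 < x → {n | n ∈ S ∧ (⌊x * a n⌋ + h).toNat.Prime}.Finite := by
  have hj : ∀ j : ℕ, ∀ᵐ x : ℝ, 1 / ((j : ℝ) + 2) < x → x ≤ j + 2 →
      {n | n ∈ S ∧ (⌊x * a n⌋ + h).toNat.Prime}.Finite := by
    intro j
    set u : ℝ := 1 / ((j : ℝ) + 2) with hu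
    set v : ℝ := (j : ℝ) + 2 with hv
    have hu0 : 0 < u := by rw [hu]; positivity
    have huv : u < v := by
      have h2 : (2 : ℝ) ≤ v := by rw [hv]; linarith [Nat.cast_nonneg (α := ℝ) j]
      have : u ≤ 1 := by
        rw [hu, div_le_one (by positivity)]
        linarith [Nat.cast_nonneg (α := ℝ) j]
      linarith
    set E : ℕ → Set ℝ := fun n => {x | n ∈ S ∧ (⌊x * a n⌋ + h).toNat.Prime} with hE
    have hEm : ∀ n, MeasurableSet (E n) := by
      intro n
      have hm : Measurable (fun x : ℝ => ⌊x * a n⌋) := Int.measurable_floor.comp (by fun_prop)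
      by_cases hn : n ∈ S
      · have : E n = (fun x : ℝ => ⌊x * a n⌋) ⁻¹' {z : ℤ | (z + h).toNat.Prime} := by
          ext x; simp [hE, hn]
        rw [this]
        exact hm MeasurableSet.of_discrete
      · have : E n = ∅ := by ext x; simp [hE, hn]
        rw [this]; exact MeasurableSet.empty
    have hval : ∀ n, (volume.restrict (Ioc u v)) (E n) =
        ENNReal.ofReal (S.indicator (fun n => ∫ x in u..v, ind h (x * a n)) n) := by
      intro n
      rw [Measure.restrict_apply (hEm n)]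
      by_cases hn : n ∈ S
      · rw [Set.indicator_of_mem hn, intervalIntegral.integral_of_le huv.le]
        have e1 : (fun x => ind h (x * a n)) = (E n).indicator (fun _ => (1 : ℝ)) := by
          ext x
          unfold ind Set.indicator
          simp only [hE, mem_setOf_eq, hn, true_and]
        have hfin : volume (E n ∩ Ioc u v) ≠ ⊤ :=
          ne_top_of_le_ne_top (by rw [Real.volume_Ioc]; exact ENNReal.ofReal_ne_top)
            (measure_mono inter_subset_right)
        rw [e1, integral_indicator (hEm n), setIntegral_const, smul_eq_mul, mul_one,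
          measureReal_restrict_apply (hEm n), ofReal_measureReal hfin]
      · have : E n = ∅ := by ext x; simp [hE, hn]
        rw [this, Set.indicator_of_notMem hn]
        simp
    have hsum : Summable (S.indicator (fun n => ∫ x in u..v, ind h (x * a n))) := by
      have f1 := ((first h hu0 huv).comp hat).eventually_le_const
        (by linarith : v - u < 2 * (v - u))
      have hs2 := hS.mul_left (2 * (v - u))
      refine Summable.of_norm_bounded_eventually_nat hs2 ?_
      filter_upwards [f1, hat.eventually_gt_atTop 1] with n hn hn1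
      by_cases hnS : n ∈ S
      · rw [Set.indicator_of_mem hnS, Set.indicator_of_mem hnS, Real.norm_of_nonneg
          (intervalIntegral.integral_nonneg huv.le fun _ _ => ind_nonneg _ _), mul_one_div,
          le_div_iff₀ (Real.log_pos hn1)]
        exact hn
      · rw [Set.indicator_of_notMem hnS, Set.indicator_of_notMem hnS]
        simp
    have hbc : ∑' n, (volume.restrict (Ioc u v)) (E n) ≠ ⊤ := by
      simp only [hval]
      rw [← ENNReal.ofReal_tsum_of_nonneg _ hsum]
      · exact ENNReal.ofReal_ne_top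
      · intro n
        exact Set.indicator_nonneg (fun n _ =>
          intervalIntegral.integral_nonneg huv.le fun _ _ => ind_nonneg _ _) n
    have h3 := ae_eventually_notMem hbc
    rw [ae_restrict_iff' measurableSet_Ioc] at h3
    filter_upwards [h3] with x hx hxu hxv
    obtain ⟨N, hN⟩ := eventually_atTop.1 (hx ⟨hxu, hxv⟩)
    refine (Set.finite_lt_nat N).subset fun n hn => ?_
    by_contra hc
    exact hN n (not_lt.1 hc) hn
  rw [← ae_all_iff] at hj
  filter_upwards [hj] with x hx hx0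
  obtain ⟨j, hj1⟩ := exists_nat_gt (max x (1 / x))
  have h4 : x < j := (le_max_left _ _).trans_lt hj1
  have h5 : 1 / x < j := (le_max_right _ _).trans_lt hj1
  refine hx j ?_ (by linarith)
  rw [div_lt_iff₀ (by positivity)]
  rw [div_lt_iff₀ hx0] at h5
  nlinarith

end Pool.Agent.U441.MS
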