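import Pool.Agent.U441.MS.Mg

/-! The sequence `n ^ n`. -/

set_option autoImplicit false

namespace Pool.Agent.U441.MS

open MeasureTheory Filter Topology Set

/-- the sequence `n ^ n` -/
noncomputable def sp (n : ℕ) : ℝ := (n : ℝ) ^ n

lemma sp_one (n : ℕ) : 1 ≤ sp n := by
  unfold sp
  rcases Nat.eq_zero_or_pos n with h | h
  · simp [h]
  · exact one_le_pow₀ (by exact_mod_cast h)

lemma sp_log (n : ℕ) : Real.log (sp n) = n * Real.log n := by
  unfold sp
  rw [Real.log_pow]

lemma sp_grow : ∀ᶠ n : ℕ in atTop, (n : ℝ) ^ (1 : ℝ) * sp n ≤ sp (n + 1) := by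
  refine Eventually.of_forall fun n => ?_
  rw [Real.rpow_one]
  unfold sp
  push_cast
  rw [pow_succ, mul_comm]
  gcongr <;> linarith

lemma sp_poly : ∀ᶠ n : ℕ in atTop, Real.log (sp n) ≤ (n : ℝ) ^ 2 := by
  filter_upwards [eventually_ge_atTop 1] with n hn
  rw [sp_log, sq]
  have h1 : (0 : ℝ) < n := by exact_mod_cast hn
  have h2 := Real.log_le_sub_one_of_pos h1
  gcongr
  linarith

lemma sp_tendsto : Tendsto sp atTop atTop := by
  refine tendsto_atTop_mono' atTop ?_ tendsto_natCast_atTop_atTop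
  filter_upwards [eventually_ge_atTop 1] with n hn
  unfold sp
  exact le_self_pow₀ (by exact_mod_cast hn) (by omega)

lemma step_low {n : ℕ} (hn : 2 ≤ n) :
    Real.log (Real.log ((n + 1 : ℕ) : ℝ)) - Real.log (Real.log n) ≤ 1 / (n * Real.log n) := by
  have hn' : (2 : ℝ) ≤ n := by exact_mod_cast hn
  have hl : 0 < Real.log n := Real.log_pos (by linarith)
  have hl1 : 0 < Real.log ((n + 1 : ℕ) : ℝ) := Real.log_pos (by push_cast; linarith)
  rw [← Real.log_div hl1.ne' hl.ne']
  have h1 := Real.log_le_sub_one_of_pos (div_pos hl1 hl)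
  have h2 : Real.log ((n + 1 : ℕ) : ℝ) - Real.log n ≤ 1 / n := by
    rw [← Real.log_div (by positivity) (by positivity)]
    have h3 := Real.log_le_sub_one_of_pos (x := ((n + 1 : ℕ) : ℝ) / n) (by positivity)
    have h4 : ((n + 1 : ℕ) : ℝ) / n - 1 = 1 / n := by
      push_cast
      field_simp
      ring
    linarith
  calc Real.log (Real.log ((n + 1 : ℕ) : ℝ) / Real.log n)
      ≤ (Real.log ((n + 1 : ℕ) : ℝ) - Real.log n) / Real.log n := by
        rw [sub_div, div_self hl.ne']; exact h1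
    _ ≤ (1 / n) / Real.log n := by gcongr
    _ = 1 / (n * Real.log n) := by rw [div_div]

lemma step_high {n : ℕ} (hn : 2 ≤ n) :
    1 / (((n + 1 : ℕ) : ℝ) * Real.log ((n + 1 : ℕ) : ℝ)) ≤
      Real.log (Real.log ((n + 1 : ℕ) : ℝ)) - Real.log (Real.log n) := by
  have hn' : (2 : ℝ) ≤ n := by exact_mod_cast hn
  have hl : 0 < Real.log n := Real.log_pos (by linarith)
  have hl1 : 0 < Real.log ((n + 1 : ℕ) : ℝ) := Real.log_pos (by push_cast; linarith)
  have h1 := Real.log_le_sub_one_of_pos (div_pos hl hl1)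
  rw [Real.log_div hl.ne' hl1.ne'] at h1
  have h2 : 1 / ((n + 1 : ℕ) : ℝ) ≤ Real.log ((n + 1 : ℕ) : ℝ) - Real.log n := by
    have h3 := Real.log_le_sub_one_of_pos (x := (n : ℝ) / ((n + 1 : ℕ) : ℝ)) (by positivity)
    rw [Real.log_div (by positivity) (by positivity)] at h3
    have h4 : (n : ℝ) / ((n + 1 : ℕ) : ℝ) - 1 = -(1 / ((n + 1 : ℕ) : ℝ)) := by
      push_cast
      field_simp
      ring
    linarith
  have h5 : 1 / (((n + 1 : ℕ) : ℝ) * Real.log ((n + 1 : ℕ) : ℝ)) =
      (1 / ((n + 1 : ℕ) : ℝ)) / Real.log ((n + 1 : ℕ) : ℝ) := by rw [div_div]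
  rw [h5]
  calc (1 / ((n + 1 : ℕ) : ℝ)) / Real.log ((n + 1 : ℕ) : ℝ)
      ≤ (Real.log ((n + 1 : ℕ) : ℝ) - Real.log n) / Real.log ((n + 1 : ℕ) : ℝ) := by gcongr
    _ = 1 - Real.log n / Real.log ((n + 1 : ℕ) : ℝ) := by rw [sub_div, div_self hl1.ne']
    _ ≤ _ := by linarith

/-- the expected number of primes `⌊x n ^ n⌋ + h`, `n ≤ N`, is `log log N + O(1)` -/
lemma W_sp : ∃ B : ℝ, ∀ N : ℕ, 2 ≤ N → |W sp univ N - Real.log (Real.log N)| ≤ B := by
  have e : ∀ N : ℕ, W sp univ (N + 1) = W sp univ N + 1 / (((N + 1 : ℕ) : ℝ) * Real.log ((N + 1 : ℕ) : ℝ)) := by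
    intro N
    unfold W FS
    simp only [mem_univ, Finset.filter_true]
    rw [Finset.sum_range_succ, sp_log]
  set D : ℝ := W sp univ 2 - Real.log (Real.log (2 : ℕ)) with hD
  have hup : ∀ N : ℕ, 2 ≤ N → W sp univ N - Real.log (Real.log N) ≤ D := by
    intro N hN
    induction N, hN using Nat.le_induction with
    | base => exact le_rfl
    | succ n hn ih =>
      rw [e n]
      have := step_high hn
      linarith
  have hlo : ∀ N : ℕ, 2 ≤ N → D - 1 / (2 * Real.log 2) + 1 / (N * Real.log N) ≤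
      W sp univ N - Real.log (Real.log N) := by
    intro N hN
    induction N, hN using Nat.le_induction with
    | base => rw [hD]; push_cast; linarith
    | succ n hn ih =>
      rw [e n]
      have := step_low hn
      linarith
  refine ⟨|D| + 1 / (2 * Real.log 2), fun N hN => ?_⟩
  have h1 := hup N hN
  have h2 := hlo N hN
  have h3 : 0 < Real.log 2 := Real.log_pos (by norm_num)
  have h4 : 0 ≤ 1 / (2 * Real.log 2) := by positivity
  have h5 : 0 ≤ 1 / ((N : ℝ) * Real.log N) := by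
    have : 0 ≤ Real.log N := Real.log_natCast_nonneg N
    positivity
  rw [abs_le]
  constructor
  · linarith [neg_abs_le D]
  · linarith [le_abs_self D]

lemma loglog_tendsto : Tendsto (fun N : ℕ => Real.log (Real.log N)) atTop atTop :=
  Real.tendsto_log_atTop.comp (Real.tendsto_log_atTop.comp tendsto_natCast_atTop_atTop)

lemma W_sp_tendsto : Tendsto (W sp univ) atTop atTop := by
  obtain ⟨B, hB⟩ := W_sp
  have h1 := tendsto_atTop_add_const_right atTop (-B) loglog_tendsto
  refine tendsto_atTop_mono' atTop ?_ h1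
  filter_upwards [eventually_ge_atTop 2] with N hN
  have := (abs_le.1 (hB N hN)).1
  linarith

/-- the indices `2 ^ (2 ^ k)` -/
def fermatIdx : Set ℕ := Set.range fun k : ℕ => 2 ^ (2 ^ k)

lemma summable_fermat : Summable (fermatIdx.indicator fun n => 1 / Real.log (sp n)) := by
  have hinj : Function.Injective fun k : ℕ => 2 ^ (2 ^ k) := by
    intro a b hab
    exact Nat.pow_right_injective le_rfl (Nat.pow_right_injective le_rfl hab)
  have h1 := hinj.summable_iff (f := fermatIdx.indicator fun n => 1 / Real.log (sp n))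
    (fun x hx => Set.indicator_of_notMem hx _)
  rw [← h1]
  have hl : 0 < Real.log 2 := Real.log_pos (by norm_num)
  have h2 : Summable fun k : ℕ => (1 / Real.log 2) * (1 / 2 : ℝ) ^ k :=
    (summable_geometric_of_lt_one (by norm_num) (by norm_num)).mul_left _
  refine Summable.of_nonneg_of_le (fun k => ?_) (fun k => ?_) h2
  · exact Set.indicator_nonneg (fun n _ => one_div_nonneg.2 (Real.log_nonneg (sp_one n))) _
  · simp only [Function.comp]
    rw [Set.indicator_of_mem (show (2 : ℕ) ^ (2 ^ k) ∈ fermatIdx from ⟨k, rfl⟩), sp_log]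
    push_cast
    rw [Real.log_pow]
    push_cast
    have h3 : (1 : ℝ) ≤ 2 ^ (2 ^ k) := one_le_pow₀ (by norm_num)
    have h4 : (2 : ℝ) ^ k * Real.log 2 ≤ 2 ^ (2 ^ k) * (2 ^ k * Real.log 2) := by
      have : 0 < (2 : ℝ) ^ k * Real.log 2 := by positivity
      nlinarith
    calc 1 / ((2 : ℝ) ^ (2 ^ k) * (2 ^ k * Real.log 2)) ≤ 1 / ((2 : ℝ) ^ k * Real.log 2) :=
          one_div_le_one_div_of_le (by positivity) h4
      _ = 1 / Real.log 2 * (1 / 2) ^ k := by
          rw [one_div_pow]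
          field_simp

end Pool.Agent.U441.MS
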