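import Pool.Agent.U441.MS.Mf

/-! Lacunary sequences: the second moment. -/

set_option autoImplicit false

namespace Pool.Agent.U441.MS

open MeasureTheory Filter Topology Set

/-- `a_0 ≥ 1`, `a_{n+1} ≥ 2 a_n`, `log a_n ≤ D n` for `n ≥ 1` -/
structure Lac (a : ℕ → ℝ) (D : ℕ) : Prop where
  zero : 1 ≤ a 0
  dbl : ∀ n, 2 * a n ≤ a (n + 1)
  up : ∀ n, 1 ≤ n → Real.log (a n) ≤ D * n
  D1 : 1 ≤ D

lemma Lac.pos {a : ℕ → ℝ} {D : ℕ} (H : Lac a D) (n : ℕ) : 1 ≤ a n := by
  induction n with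
  | zero => exact H.zero
  | succ n ih => linarith [H.dbl n]

lemma Lac.gap {a : ℕ → ℝ} {D : ℕ} (H : Lac a D) (n j : ℕ) :
    (j : ℝ) * Real.log 2 ≤ Real.log (a (n + j)) - Real.log (a n) := by
  induction j with
  | zero => simp
  | succ j ih =>
    have h1 := H.dbl (n + j)
    have h2 := H.pos (n + j)
    have h3 := Real.log_le_log (by positivity) h1
    rw [Real.log_mul (by norm_num) (by linarith)] at h3
    rw [show n + (j + 1) = n + j + 1 by ring]
    push_cast
    linarith

lemma Lac.low {a : ℕ → ℝ} {D : ℕ} (H : Lac a D) (n : ℕ) : (n : ℝ) * Real.log 2 ≤ Real.log (a n) := by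
  have h1 := H.gap 0 n
  rw [zero_add] at h1
  have h2 := Real.log_nonneg H.zero
  linarith

lemma log2_half : (1 : ℝ) / 2 ≤ Real.log 2 := by
  linarith [Real.log_two_gt_d9]

lemma Lac.tendsto {a : ℕ → ℝ} {D : ℕ} (H : Lac a D) : Tendsto a atTop atTop := by
  have h1 : ∀ n : ℕ, (n : ℝ) * Real.log 2 ≤ a n := by
    intro n
    have h2 := H.low n
    have h3 := H.pos n
    have h4 := Real.log_le_sub_one_of_pos (by linarith : 0 < a n)
    linarith
  refine tendsto_atTop_mono h1 ?_
  exact tendsto_natCast_atTop_atTop.atTop_mul_const (Real.log_pos (by norm_num))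

lemma Lac.logpos {a : ℕ → ℝ} {D : ℕ} (H : Lac a D) {n : ℕ} (hn : 1 ≤ n) : 0 < Real.log (a n) := by
  have h1 := H.low n
  have h2 : (1 : ℝ) ≤ n := by exact_mod_cast hn
  have h3 := log2_half
  nlinarith

lemma near2 {a : ℕ → ℝ} {D : ℕ} (H : Lac a D) {n : ℕ} (hn : 1 ≤ n) (F : Finset ℕ)
    (hF : ∀ m ∈ F, n < m) :
    ∑ m ∈ F, 1 / (Real.log (a m) - Real.log (a n)) ≤ 2 * ∑ m ∈ F, 1 / Real.log (a m) +
      2 * (1 + Real.log ((2 * D * n : ℕ) : ℝ)) := by
  set L : ℕ → ℝ := fun n => Real.log (a n) with hLdef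
  have hn0 : (0 : ℝ) < n := by exact_mod_cast hn
  set P : ℕ := 2 * D * n with hP
  have h2 := log2_half
  have key : ∀ m ∈ F, 1 / (L m - L n) ≤ 2 * (1 / L m) +
      (if m ∈ Finset.Ioc n (n + P) then 2 / ((m - n : ℕ) : ℝ) else 0) := by
    intro m hm
    have hnm := hF m hm
    obtain ⟨j, rfl⟩ : ∃ j, m = n + j := ⟨m - n, by omega⟩
    have hj : 1 ≤ j := by omega
    have hj' : (1 : ℝ) ≤ j := by exact_mod_cast hj
    have hg : (j : ℝ) * Real.log 2 ≤ L (n + j) - L n := H.gap n j
    have hLm : 0 < L (n + j) := H.logpos (by omega)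
    have hLn : 0 < L n := H.logpos hn
    have hg2 : (j : ℝ) / 2 ≤ L (n + j) - L n := by nlinarith
    have hpos : 0 < (j : ℝ) / 2 := by positivity
    have h2L : 0 ≤ 2 * (1 / L (n + j)) := by positivity
    by_cases hcase : 2 * L n ≤ L (n + j)
    · have h5 : L (n + j) / 2 ≤ L (n + j) - L n := by linarith
      have h6 : 1 / (L (n + j) - L n) ≤ 1 / (L (n + j) / 2) :=
        one_div_le_one_div_of_le (by positivity) h5
      have h7 : 1 / (L (n + j) / 2) = 2 * (1 / L (n + j)) := by field_simp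
      have h8 : 0 ≤ (if n + j ∈ Finset.Ioc n (n + P) then
          2 / ((n + j - n : ℕ) : ℝ) else 0) := by
        split
        · positivity
        · exact le_rfl
      linarith
    · rw [not_le] at hcase
      have h5 : (j : ℝ) / 2 ≤ D * n := by
        have : L n ≤ D * n := H.up n hn
        linarith
      have h7 : j ≤ P := by
        have : (j : ℝ) ≤ (P : ℝ) := by rw [hP]; push_cast; linarith
        exact_mod_cast this
      rw [if_pos (Finset.mem_Ioc.2 ⟨by omega, by omega⟩)]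
      have h8 : (n + j - n : ℕ) = j := by omega
      rw [h8]
      have h9 : 1 / (L (n + j) - L n) ≤ 1 / ((j : ℝ) / 2) :=
        one_div_le_one_div_of_le hpos hg2
      have h10 : 1 / ((j : ℝ) / 2) = 2 / j := by field_simp
      linarith
  refine (Finset.sum_le_sum key).trans ?_
  rw [Finset.sum_add_distrib, ← Finset.mul_sum]
  refine add_le_add le_rfl ?_
  have h4 : ∑ m ∈ F, (if m ∈ Finset.Ioc n (n + P) then
      2 / ((m - n : ℕ) : ℝ) else 0) ≤
      ∑ m ∈ Finset.Ioc n (n + P), 2 / ((m - n : ℕ) : ℝ) := by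
    rw [← Finset.sum_filter]
    refine Finset.sum_le_sum_of_subset_of_nonneg ?_ ?_
    · intro m hm
      exact (Finset.mem_filter.1 hm).2
    · intro m _ _
      positivity
  refine h4.trans ?_
  have h5 : ∑ m ∈ Finset.Ioc n (n + P), 2 / ((m - n : ℕ) : ℝ) =
      ∑ i ∈ Finset.range P, 2 / ((i : ℝ) + 1) := by
    have e : Finset.Ioc n (n + P) = (Finset.range P).image (fun i => n + (i + 1)) := by
      ext m
      simp only [Finset.mem_Ioc, Finset.mem_image, Finset.mem_range]
      constructor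
      · intro hm
        exact ⟨m - n - 1, by omega, by omega⟩
      · rintro ⟨i, hi, rfl⟩
        omega
    rw [e, Finset.sum_image (by intro a _ b _ hab; simpa using hab)]
    refine Finset.sum_congr rfl fun i _ => ?_
    rw [show n + (i + 1) - n = i + 1 by omega]
    push_cast
    rfl
  rw [h5]
  have h6 : ∑ i ∈ Finset.range P, 2 / ((i : ℝ) + 1) = 2 * ((harmonic P : ℚ) : ℝ) := by
    unfold harmonic
    push_cast
    rw [Finset.mul_sum]
    refine Finset.sum_congr rfl fun i _ => ?_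
    rw [div_eq_mul_inv]
  rw [h6]
  have h7 := harmonic_le_one_add_log P
  linarith

/-- the double sum -/
lemma double2 {a : ℕ → ℝ} {D : ℕ} (H : Lac a D) {N : ℕ} (hN : 1 ≤ N) (F : Finset ℕ)
    (hF : ∀ m ∈ F, 1 ≤ m ∧ m ≤ N) :
    ∑ n ∈ F, ∑ m ∈ F.filter (fun m => n < m), 1 / (Real.log (a n) * (Real.log (a m) - Real.log (a n))) ≤
      2 * (∑ n ∈ F, 1 / Real.log (a n)) ^ 2 +
        4 * (1 + Real.log N) * (1 + Real.log ((2 * D * N : ℕ) : ℝ)) := by
  set B : ℝ := 1 + Real.log ((2 * D * N : ℕ) : ℝ) with hB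
  set W' : ℝ := ∑ n ∈ F, 1 / Real.log (a n) with hW'
  have hD := H.D1
  have hstep : ∀ n ∈ F, ∑ m ∈ F.filter (fun m => n < m),
      1 / (Real.log (a n) * (Real.log (a m) - Real.log (a n))) ≤
      1 / Real.log (a n) * (2 * W' + 2 * B) := by
    intro n hn
    have hLn := H.logpos (hF n hn).1
    have e : ∑ m ∈ F.filter (fun m => n < m), 1 / (Real.log (a n) * (Real.log (a m) - Real.log (a n))) =
        1 / Real.log (a n) * ∑ m ∈ F.filter (fun m => n < m), 1 / (Real.log (a m) - Real.log (a n)) := by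
      rw [Finset.mul_sum]
      refine Finset.sum_congr rfl fun m _ => ?_
      rw [one_div_mul_one_div]
    rw [e]
    refine mul_le_mul_of_nonneg_left ?_ (by positivity)
    refine (near2 H (hF n hn).1 _ (fun m hm => (Finset.mem_filter.1 hm).2)).trans ?_
    have h1 : ∑ m ∈ F.filter (fun m => n < m), 1 / Real.log (a m) ≤ W' :=
      Finset.sum_le_sum_of_subset_of_nonneg (Finset.filter_subset _ _)
        (fun m hm _ => (one_div_pos.2 (H.logpos (hF m hm).1)).le)
    have h2 : Real.log ((2 * D * n : ℕ) : ℝ) ≤ Real.log ((2 * D * N : ℕ) : ℝ) := by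
      have h3 : 0 < 2 * D * n := by
        have := (hF n hn).1
        positivity
      refine Real.log_le_log (by exact_mod_cast h3) ?_
      exact_mod_cast Nat.mul_le_mul_left _ (hF n hn).2
    linarith
  refine (Finset.sum_le_sum hstep).trans ?_
  rw [← Finset.sum_mul, ← hW']
  have hWN : W' ≤ 2 * (1 + Real.log N) := by
    have h1 : W' ≤ ∑ n ∈ F, 2 * (1 / (n : ℝ)) := by
      refine Finset.sum_le_sum fun n hn => ?_
      have h2 := H.low n
      have h3 : (1 : ℝ) ≤ n := by exact_mod_cast (hF n hn).1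
      have h4 := log2_half
      have h5 : (n : ℝ) / 2 ≤ Real.log (a n) := by nlinarith
      have h6 := one_div_le_one_div_of_le (by positivity : (0 : ℝ) < n / 2) h5
      refine h6.trans (le_of_eq ?_)
      field_simp
    have h2 : ∑ n ∈ F, 2 * (1 / (n : ℝ)) ≤ ∑ n ∈ Finset.Ioc 0 (0 + N), 2 * (1 / (n : ℝ)) := by
      refine Finset.sum_le_sum_of_subset_of_nonneg ?_ fun n _ _ => by positivity
      intro n hn
      have := hF n hn
      rw [Finset.mem_Ioc]
      omega
    have h3 : ∑ n ∈ Finset.Ioc 0 (0 + N), 2 * (1 / (n : ℝ)) = 2 * ((harmonic N : ℚ) : ℝ) := by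
      have e : Finset.Ioc 0 (0 + N) = (Finset.range N).image (fun i => i + 1) := by
        ext m
        simp only [Finset.mem_Ioc, Finset.mem_image, Finset.mem_range]
        constructor
        · intro hm
          exact ⟨m - 1, by omega, by omega⟩
        · rintro ⟨i, hi, rfl⟩
          omega
      rw [e, Finset.sum_image (by intro a _ b _ hab; simpa using hab)]
      unfold harmonic
      push_cast
      rw [Finset.mul_sum]
      refine Finset.sum_congr rfl fun i _ => ?_
      rw [one_div]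
    have h4 := harmonic_le_one_add_log N
    linarith
  have hB0 : 0 ≤ B := by
    rw [hB]
    have : 0 ≤ Real.log ((2 * D * N : ℕ) : ℝ) := Real.log_natCast_nonneg _
    linarith
  have hlN : 0 ≤ Real.log N := Real.log_natCast_nonneg N
  have : W' * (2 * B) ≤ 2 * (1 + Real.log N) * (2 * B) := mul_le_mul_of_nonneg_right hWN (by linarith)
  nlinarith

/-- the second moment for lacunary sequences -/
theorem second2 : ∃ C : ℝ, 1 ≤ C ∧ ∀ (a : ℕ → ℝ) (D : ℕ), Lac a D →
    ∀ (h : ℤ) (u v : ℝ), 0 < u → u < v → ∃ n2 : ℕ, 1 ≤ n2 ∧ ∀ N : ℕ, 1 ≤ N → ∀ F : Finset ℕ,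
      (∀ n ∈ F, n2 ≤ n ∧ n ≤ N) →
      ∫ x in u..v, T a h F x ^ 2 ≤ 2 * (v - u) * (∑ n ∈ F, 1 / Real.log (a n)) +
        2 * (C * (v - u) * (2 * (∑ n ∈ F, 1 / Real.log (a n)) ^ 2 +
          4 * (1 + Real.log N) * (1 + Real.log ((2 * D * N : ℕ) : ℝ)))) := by
  obtain ⟨C, hC1, hC⟩ := pair
  refine ⟨C, hC1, fun a D H h u v hu huv => ?_⟩
  have hvu : 0 < v - u := by linarith
  have ht := H.tendsto
  have f1 := ((first h hu huv).comp ht).eventually_le_const (by linarith : v - u < 2 * (v - u))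
  have f2 := ht.eventually (hC h u v hu huv)
  obtain ⟨n2, hn2⟩ := eventually_atTop.1 (f1.and f2)
  refine ⟨max 1 n2, le_max_left _ _, fun N hN F hF => ?_⟩
  have hF1 : ∀ n ∈ F, 1 ≤ n ∧ n ≤ N := fun n hn => ⟨(le_max_left _ _).trans (hF n hn).1, (hF n hn).2⟩
  have hF2 : ∀ n ∈ F, n2 ≤ n := fun n hn => (le_max_right _ _).trans (hF n hn).1
  rw [int_T_sq, sum_symm F _ (fun n m => by simp only [mul_comm])]
  set W' := ∑ n ∈ F, 1 / Real.log (a n) with hW
  have d1 : ∑ n ∈ F, ∫ x in u..v, ind h (x * a n) * ind h (x * a n) ≤ 2 * (v - u) * W' := by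
    rw [hW, Finset.mul_sum]
    refine Finset.sum_le_sum fun n hn => ?_
    have h1 := (hn2 n (hF2 n hn)).1
    simp only [Function.comp] at h1
    simp only [ind_sq]
    rw [mul_one_div, le_div_iff₀ (H.logpos (hF1 n hn).1)]
    exact h1
  have d2 : ∑ n ∈ F, ∑ m ∈ F.filter (fun m => n < m), ∫ x in u..v, ind h (x * a n) * ind h (x * a m) ≤
      C * (v - u) * (2 * W' ^ 2 + 4 * (1 + Real.log N) * (1 + Real.log ((2 * D * N : ℕ) : ℝ))) := by
    have h3 := double2 H hN F hF1
    refine le_trans ?_ (mul_le_mul_of_nonneg_left h3 (by positivity : 0 ≤ C * (v - u)))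
    rw [Finset.mul_sum]
    refine Finset.sum_le_sum fun n hn => ?_
    rw [Finset.mul_sum]
    refine Finset.sum_le_sum fun m hm => ?_
    obtain ⟨hmF, hnm⟩ := Finset.mem_filter.1 hm
    have h4 := (hn2 n (hF2 n hn)).2
    have hpn := H.pos n
    have hpm := H.pos m
    have han : 0 < a n := by linarith
    have ham : 0 < a m := by linarith
    have hlog : Real.log (a m / a n) = Real.log (a m) - Real.log (a n) :=
      Real.log_div ham.ne' han.ne'
    have hy : 2 ≤ a m / a n := by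
      obtain ⟨j, rfl⟩ : ∃ j, m = n + 1 + j := ⟨m - (n + 1), by omega⟩
      rw [le_div_iff₀ han]
      have h6 := H.gap (n + 1) j
      have h7 : Real.log (a (n + 1)) ≤ Real.log (a (n + 1 + j)) := by
        have : 0 ≤ (j : ℝ) * Real.log 2 := by positivity
        linarith
      have h8 := (Real.log_le_log_iff (by linarith [H.pos (n + 1)]) (by linarith)).1 h7
      linarith [H.dbl n]
    have h5 := h4 (a m / a n) hy
    rw [mul_div_cancel₀ _ han.ne', hlog] at h5
    refine h5.trans (le_of_eq ?_)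
    rw [mul_one_div]
  linarith

end Pool.Agent.U441.MS
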