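import Pool.Agent.U441.MS.Na

/-! Lacunary sequences: almost every `x`; the Pell sequence. -/

set_option autoImplicit false

namespace Pool.Agent.U441.MS

open MeasureTheory Filter Topology Set

lemma FS0_sub' (S : Set ℕ) (n0 N : ℕ) : FS0 S n0 N ⊆ FS S N := Finset.filter_subset _ _

lemma FS0_zero' (S : Set ℕ) (N : ℕ) : FS0 S 0 N = FS S N := by
  unfold FS0
  exact Finset.filter_true_of_mem fun _ _ => Nat.zero_le _

lemma T_mono' (a : ℕ → ℝ) (h : ℤ) {F F' : Finset ℕ} (hF : F ⊆ F') (x : ℝ) : T a h F x ≤ T a h F' x :=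
  Finset.sum_le_sum_of_subset_of_nonneg hF fun _ _ _ => ind_nonneg _ _

theorem ae_two {a : ℕ → ℝ} {D : ℕ} (H : Lac a D) (S : Set ℕ) {δ : ℝ} (hδ : 0 < δ)
    (hS : ∀ᶠ N : ℕ in atTop, δ * Real.log N ≤ W a S N) (h : ℤ) {ε : ℝ} (hε : 0 < ε) (hε1 : ε ≤ 1) :
    ∀ᵐ x : ℝ, 0 < x → (∃ᶠ N in atTop, (1 - ε) * W a S N < T a h (FS S N) x) ∧
      (∃ᶠ N in atTop, T a h (FS S N) x < (1 + ε) * W a S N) := by
  have hat := H.tendsto
  have ha := H.pos
  have hlogt : Tendsto (fun N : ℕ => Real.log N) atTop atTop :=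
    Real.tendsto_log_atTop.comp tendsto_natCast_atTop_atTop
  have hW : Tendsto (W a S) atTop atTop :=
    tendsto_atTop_mono' atTop hS (hlogt.const_mul_atTop hδ)
  obtain ⟨C, hC1, hC⟩ := second2
  set R : ℕ → ℝ → ℝ := fun N x => T a h (FS S N) x / W a S N with hR
  have hW0 : ∀ N, 0 ≤ W a S N := fun N =>
    Finset.sum_nonneg fun n _ => one_div_nonneg.2 (Real.log_nonneg (ha n))
  have hRm : ∀ N, Measurable (R N) := fun N => (T_meas a h _).div_const _
  have hR0 : ∀ N x, 0 ≤ R N x := fun N x => div_nonneg (T_nonneg a h _ x) (hW0 N)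
  have hRi : ∀ N u v, IntervalIntegrable (R N) volume u v := fun N u v =>
    (T_int a h (FS S N) u v).div_const _
  have hRl : ∀ u v : ℝ, 0 < u → u < v → Tendsto (fun N => ∫ x in u..v, R N x) atTop (𝓝 (v - u)) := by
    intro u v hu huv
    have := first_T ha hat S hW h 0 hu huv
    refine this.congr fun N => ?_
    rw [FS0_zero']
  have key1 := fun M : ℕ => not_above hRm hR0 hRi hRl hε M
  set l2 : ℝ := Real.log ((2 * D : ℕ) : ℝ) with hl2
  have hl20 : 0 ≤ l2 := Real.log_natCast_nonneg _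
  set K : ℝ := 2 + 2 * (C * (2 + 8 * (2 + l2) / δ ^ 2)) with hK
  have hK1 : 1 ≤ K := by
    rw [hK]
    have : 0 ≤ 8 * (2 + l2) / δ ^ 2 := by positivity
    have : 0 ≤ C * (2 + 8 * (2 + l2) / δ ^ 2) := by positivity
    linarith
  have key2 := fun M : ℕ => not_below hRm hK1 (fun u v hu huv => by
    obtain ⟨n2, hn2, hF⟩ := hC a D H h u v hu huv
    refine ⟨fun N x => T a h (FS0 S n2 N) x / W a S N, fun N x => ⟨div_nonneg (T_nonneg a h _ x) (hW0 N),
      div_le_div_of_nonneg_right (T_mono' a h (FS0_sub' S n2 N) x) (hW0 N)⟩,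
      fun N => (T_int a h _ u v).div_const _, fun N => ?_, first_T ha hat S hW h n2 hu huv, ?_⟩
    · simp only [div_pow]
      exact (T_sq_int a h _ u v).div_const _
    · filter_upwards [hW.eventually_ge_atTop 1, hS, hlogt.eventually_ge_atTop 1,
        eventually_ge_atTop 1] with N hN hSN hlN hN1
      simp only [div_pow]
      rw [intervalIntegral.integral_div, div_le_iff₀ (by positivity)]
      have h3 := hF N hN1 (FS0 S n2 N) (fun n hn => by
        simp only [FS0, FS, Finset.mem_filter, Finset.mem_range] at hn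
        exact ⟨hn.2, by omega⟩)
      have h4 : ∑ n ∈ FS0 S n2 N, 1 / Real.log (a n) ≤ W a S N :=
        Finset.sum_le_sum_of_subset_of_nonneg (FS0_sub' S n2 N)
          fun n _ _ => one_div_nonneg.2 (Real.log_nonneg (ha n))
      have h5 : 0 ≤ ∑ n ∈ FS0 S n2 N, 1 / Real.log (a n) :=
        Finset.sum_nonneg fun n _ => one_div_nonneg.2 (Real.log_nonneg (ha n))
      set w := ∑ n ∈ FS0 S n2 N, 1 / Real.log (a n) with hw
      have hvu : 0 < v - u := by linarith
      have h6 : w ≤ W a S N ^ 2 := by nlinarith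
      have h7 : w ^ 2 ≤ W a S N ^ 2 := by gcongr
      have h8 : Real.log ((2 * D * N : ℕ) : ℝ) = l2 + Real.log N := by
        have hD := H.D1
        rw [hl2, ← Real.log_mul (by exact_mod_cast (by omega : 2 * D ≠ 0))
          (by exact_mod_cast (by omega : N ≠ 0))]
        push_cast
        rfl
      rw [h8] at h3
      set t := Real.log N with ht
      have h9 : 4 * (1 + t) * (1 + (l2 + t)) ≤ 8 * (2 + l2) * t ^ 2 := by
        have e1 : 1 + t ≤ 2 * t := by linarith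
        have e2 : 1 + (l2 + t) ≤ (2 + l2) * t := by nlinarith
        have e3 : 4 * (1 + t) * (1 + (l2 + t)) ≤ 4 * (2 * t) * ((2 + l2) * t) := by gcongr
        nlinarith
      have h10 : 8 * (2 + l2) * t ^ 2 ≤ 8 * (2 + l2) / δ ^ 2 * W a S N ^ 2 := by
        have e1 : (δ * t) ^ 2 ≤ W a S N ^ 2 := by gcongr
        have e2 : 8 * (2 + l2) * t ^ 2 = 8 * (2 + l2) / δ ^ 2 * (δ * t) ^ 2 := by
          field_simp
        rw [e2]
        gcongr
      calc ∫ x in u..v, T a h (FS0 S n2 N) x ^ 2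
          ≤ 2 * (v - u) * w + 2 * (C * (v - u) * (2 * w ^ 2 + 4 * (1 + t) * (1 + (l2 + t)))) := h3
        _ ≤ 2 * (v - u) * W a S N ^ 2 + 2 * (C * (v - u) * (2 * W a S N ^ 2 +
            8 * (2 + l2) / δ ^ 2 * W a S N ^ 2)) := by
            have g1 : 2 * (v - u) * w ≤ 2 * (v - u) * W a S N ^ 2 :=
              mul_le_mul_of_nonneg_left h6 (by positivity)
            have g2 : C * (v - u) * (2 * w ^ 2 + 4 * (1 + t) * (1 + (l2 + t))) ≤
                C * (v - u) * (2 * W a S N ^ 2 + 8 * (2 + l2) / δ ^ 2 * W a S N ^ 2) :=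
              mul_le_mul_of_nonneg_left (by linarith [h9.trans h10]) (by positivity)
            linarith
        _ = K * (v - u) * W a S N ^ 2 := by rw [hK]; ring) hε hε1 M
  have n1' : ∀ᵐ x : ℝ, ∀ M : ℕ, ¬ (0 < x ∧ ∀ N, M ≤ N → 1 + ε ≤ R N x) :=
    ae_all_iff.2 fun M => (measure_eq_zero_iff_ae_notMem.1 (key1 M))
  have n2' : ∀ᵐ x : ℝ, ∀ M : ℕ, ¬ (0 < x ∧ ∀ N, M ≤ N → R N x ≤ 1 - ε) :=
    ae_all_iff.2 fun M => (measure_eq_zero_iff_ae_notMem.1 (key2 M))
  filter_upwards [n1', n2'] with x hx1 hx2 hx0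
  have hWe := hW.eventually_gt_atTop 0
  refine ⟨?_, ?_⟩
  · intro hcon
    obtain ⟨M, hM⟩ := eventually_atTop.1 (hcon.and hWe)
    refine hx2 M ⟨hx0, fun N hN => ?_⟩
    have h3 := (hM N hN).1
    have h4 := (hM N hN).2
    rw [not_lt] at h3
    show T a h (FS S N) x / W a S N ≤ 1 - ε
    rw [div_le_iff₀ h4]
    exact h3
  · intro hcon
    obtain ⟨M, hM⟩ := eventually_atTop.1 (hcon.and hWe)
    refine hx1 M ⟨hx0, fun N hN => ?_⟩
    have h3 := (hM N hN).1
    have h4 := (hM N hN).2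
    rw [not_lt] at h3
    show 1 + ε ≤ T a h (FS S N) x / W a S N
    rw [le_div_iff₀ h4]
    exact h3

/-- the solutions `(d_m, b_m)` of the Pell equation `d ^ 2 - 8 b ^ 2 = 1` -/
def pell : ℕ → ℕ × ℕ
  | 0 => (1, 0)
  | m + 1 => (3 * (pell m).1 + 8 * (pell m).2, (pell m).1 + 3 * (pell m).2)

lemma pell_eq (m : ℕ) : (pell m).1 ^ 2 = 8 * (pell m).2 ^ 2 + 1 := by
  induction m with
  | zero => rfl
  | succ m ih =>
    show (3 * (pell m).1 + 8 * (pell m).2) ^ 2 = 8 * ((pell m).1 + 3 * (pell m).2) ^ 2 + 1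
    nlinarith

lemma pell_value (m : ℕ) : 8 * (pell m).1 ^ 2 + 1 = 64 * (pell m).2 ^ 2 + 9 := by
  have := pell_eq m
  omega

/-- `8 d_m ^ 2 + 1` as a real number -/
noncomputable def pv (m : ℕ) : ℝ := ((8 * (pell m).1 ^ 2 + 1 : ℕ) : ℝ)

/-- `3 + √8` -/
noncomputable def al : ℝ := 3 + Real.sqrt 8

lemma sqrt8 : (5 : ℝ) / 2 ≤ Real.sqrt 8 ∧ Real.sqrt 8 < 3 ∧ Real.sqrt 8 ^ 2 = 8 := by
  have h := Real.sq_sqrt (show (0 : ℝ) ≤ 8 by norm_num)
  have h0 := Real.sqrt_nonneg 8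
  refine ⟨?_, ?_, h⟩
  · apply Real.le_sqrt_of_sq_le; norm_num
  · nlinarith

lemma pell_closed (m : ℕ) : ((pell m).1 : ℝ) = (al ^ m + (3 - Real.sqrt 8) ^ m) / 2 ∧
    Real.sqrt 8 * ((pell m).2 : ℝ) = (al ^ m - (3 - Real.sqrt 8) ^ m) / 2 := by
  induction m with
  | zero => simp [pell]
  | succ m ih =>
    obtain ⟨h1, h2⟩ := ih
    have h3 := sqrt8.2.2
    have e1 : (((pell (m + 1)).1 : ℕ) : ℝ) = 3 * ((pell m).1 : ℝ) + 8 * ((pell m).2 : ℝ) := by
      show ((3 * (pell m).1 + 8 * (pell m).2 : ℕ) : ℝ) = _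
      push_cast
      ring
    have e2 : (((pell (m + 1)).2 : ℕ) : ℝ) = ((pell m).1 : ℝ) + 3 * ((pell m).2 : ℝ) := by
      show (((pell m).1 + 3 * (pell m).2 : ℕ) : ℝ) = _
      push_cast
      ring
    have e3 : 8 * ((pell m).2 : ℝ) = Real.sqrt 8 * (Real.sqrt 8 * ((pell m).2 : ℝ)) := by
      rw [← mul_assoc, ← sq, h3]
    rw [e1, e2, e3, pow_succ, pow_succ, mul_add, h2, h1]
    rw [show Real.sqrt 8 * (3 * ((pell m).2 : ℝ)) = 3 * (Real.sqrt 8 * ((pell m).2 : ℝ)) by ring, h2]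
    unfold al
    constructor
    · ring
    · ring

lemma pell_bounds (m : ℕ) : al ^ m / 2 ≤ ((pell m).1 : ℝ) ∧ ((pell m).1 : ℝ) ≤ al ^ m := by
  obtain ⟨s1, s2, s3⟩ := sqrt8
  have h1 := (pell_closed m).1
  have h2 : 0 ≤ (3 - Real.sqrt 8) ^ m := pow_nonneg (by linarith) m
  have h3 : (3 - Real.sqrt 8) ^ m ≤ al ^ m := by
    refine pow_le_pow_left₀ (by linarith) ?_ m
    unfold al
    linarith
  rw [h1]
  constructor <;> linarith

lemma pv_lac : Lac pv 6 := by
  have hd1 : ∀ m, 1 ≤ (pell m).1 := by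
    intro m
    by_contra h
    have h0 : (pell m).1 = 0 := by omega
    have := pell_eq m
    rw [h0] at this
    omega
  refine ⟨?_, ?_, ?_, by norm_num⟩
  · unfold pv
    exact_mod_cast (by omega : 1 ≤ 8 * (pell 0).1 ^ 2 + 1)
  · intro n
    unfold pv
    have h1 := hd1 n
    have h2 : 2 * (8 * (pell n).1 ^ 2 + 1) ≤ 8 * (pell (n + 1)).1 ^ 2 + 1 := by
      show 2 * (8 * (pell n).1 ^ 2 + 1) ≤ 8 * (3 * (pell n).1 + 8 * (pell n).2) ^ 2 + 1
      nlinarith [Nat.zero_le ((pell n).1 * (pell n).2), Nat.zero_le ((pell n).2 ^ 2)]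
    exact_mod_cast h2
  · intro n hn
    obtain ⟨s1, s2, s3⟩ := sqrt8
    have h1 := (pell_bounds n).2
    have h2 : al ^ n ≤ 6 ^ n := pow_le_pow_left₀ (by unfold al; linarith) (by unfold al; linarith) n
    have h3 : ((pell n).1 : ℝ) ≤ 6 ^ n := h1.trans h2
    have h4 : pv n ≤ 324 ^ n := by
      unfold pv
      push_cast
      have h5 : ((pell n).1 : ℝ) ^ 2 ≤ (6 ^ n) ^ 2 := pow_le_pow_left₀ (by positivity) h3 2
      have h6 : ((6 : ℝ) ^ n) ^ 2 = 36 ^ n := by rw [← pow_mul, mul_comm, pow_mul]; norm_num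
      have h7 : (9 : ℝ) ≤ 9 ^ n := by
        calc (9 : ℝ) = 9 ^ 1 := by norm_num
          _ ≤ 9 ^ n := pow_le_pow_right₀ (by norm_num) hn
      have h8 : (1 : ℝ) ≤ 36 ^ n := one_le_pow₀ (by norm_num)
      have h9 : (324 : ℝ) ^ n = 9 ^ n * 36 ^ n := by rw [← mul_pow]; norm_num
      rw [h9]
      rw [h6] at h5
      nlinarith
    have h5 : 0 < pv n := by unfold pv; positivity
    have h6 := Real.log_le_log h5 h4
    rw [Real.log_pow] at h6
    have h7 : Real.log 324 ≤ 6 := by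
      rw [Real.log_le_iff_le_exp (by norm_num)]
      have e1 : (2.7 : ℝ) ≤ Real.exp 1 := by linarith [Real.exp_one_gt_d9]
      have e2 : Real.exp 6 = Real.exp 1 ^ 6 := by rw [← Real.exp_nat_mul]; norm_num
      rw [e2]
      calc (324 : ℝ) ≤ 2.7 ^ 6 := by norm_num
        _ ≤ Real.exp 1 ^ 6 := pow_le_pow_left₀ (by norm_num) e1 6
    calc Real.log (pv n) ≤ n * Real.log 324 := h6
      _ ≤ n * 6 := by gcongr
      _ = ((6 : ℕ) : ℝ) * n := by push_cast; ring

lemma al_log : 0 < Real.log al := by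
  obtain ⟨s1, s2, s3⟩ := sqrt8
  exact Real.log_pos (by unfold al; linarith)

lemma pv_log : Tendsto (fun n : ℕ => (n : ℝ) / Real.log (pv n)) atTop (𝓝 (1 / (2 * Real.log al))) := by
  obtain ⟨s1, s2, s3⟩ := sqrt8
  have hal : 0 < al := by unfold al; linarith
  have hlow : ∀ n : ℕ, 2 * Real.log al * n ≤ Real.log (pv n) := by
    intro n
    have h1 := (pell_bounds n).1
    have h2 : (al ^ n) ^ 2 ≤ pv n := by
      unfold pv
      push_cast
      have h3 : (al ^ n / 2) ^ 2 ≤ ((pell n).1 : ℝ) ^ 2 := pow_le_pow_left₀ (by positivity) h1 2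
      nlinarith [sq_nonneg (al ^ n)]
    have h3 := Real.log_le_log (by positivity) h2
    rw [Real.log_pow, Real.log_pow] at h3
    push_cast at h3
    linarith
  have hup : ∀ n : ℕ, Real.log (pv n) ≤ 2 * Real.log al * n + Real.log 9 := by
    intro n
    have h1 := (pell_bounds n).2
    have h0 : 1 ≤ al ^ n := one_le_pow₀ (by unfold al; linarith)
    have h2 : pv n ≤ (al ^ n) ^ 2 * 9 := by
      unfold pv
      push_cast
      have h3 : ((pell n).1 : ℝ) ^ 2 ≤ (al ^ n) ^ 2 := pow_le_pow_left₀ (by positivity) h1 2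
      nlinarith
    have h5 : 0 < pv n := by unfold pv; positivity
    have h3 := Real.log_le_log h5 h2
    rw [Real.log_mul (by positivity) (by norm_num), Real.log_pow, Real.log_pow] at h3
    push_cast at h3
    linarith
  have hl := al_log
  have h1 : Tendsto (fun n : ℕ => Real.log (pv n) / n) atTop (𝓝 (2 * Real.log al)) := by
    have h2 : Tendsto (fun n : ℕ => 2 * Real.log al + Real.log 9 / n) atTop (𝓝 (2 * Real.log al)) := by
      simpa using (tendsto_const_div_atTop_nhds_zero_nat (Real.log 9)).const_add (2 * Real.log al)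
    refine tendsto_of_tendsto_of_tendsto_of_le_of_le' tendsto_const_nhds h2 ?_ ?_
    · filter_upwards [eventually_ge_atTop 1] with n hn
      have : (0 : ℝ) < n := by exact_mod_cast hn
      rw [le_div_iff₀ this]
      exact hlow n
    · filter_upwards [eventually_ge_atTop 1] with n hn
      have hn0 : (0 : ℝ) < n := by exact_mod_cast hn
      rw [div_le_iff₀ hn0, add_mul, div_mul_cancel₀ _ hn0.ne']
      exact hup n
  have h2 := h1.inv₀ (by positivity)
  rw [← one_div] at h2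
  refine h2.congr fun n => ?_
  rw [inv_div]

end Pool.Agent.U441.MS
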